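import Mathlib

/-!
Semistationary reflection and the square principle of width `ω₁`.
-/

namespace Pool.Agent.P.MP_aee6d4_lc

universe u

open Set Cardinal

/-- `β` is a limit point of the set of ordinals `C`. -/
def IsLim (β : Ordinal.{u}) (C : Set Ordinal.{u}) : Prop :=
  β ≠ 0 ∧ ∀ η < β, ∃ c ∈ C, η < c ∧ c < β

/-- `acc C`: the limit points of `C` below `sup C`. -/
def acc (C : Set Ordinal.{u}) : Set Ordinal.{u} :=
  {β | β < sSup C ∧ IsLim β C}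

/-- `C` is a closed unbounded subset of the ordinal `α`. -/
def ClubIn (α : Ordinal.{u}) (C : Set Ordinal.{u}) : Prop :=
  C ⊆ Iio α ∧ (∀ η < α, ∃ c ∈ C, η ≤ c) ∧ ∀ β < α, IsLim β C → β ∈ C

/-- `[A]^{ℵ₀}`: the countably infinite subsets of `A`. -/
def Ctbl (A : Set Ordinal.{u}) : Set (Set Ordinal.{u}) :=
  {x | x ⊆ A ∧ x.Countable ∧ x.Infinite}

/-- `D` is club in `[A]^{ℵ₀}`: cofinal under inclusion and closed under unions of increasing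
`ω`-chains. -/
def ClubCtbl (A : Set Ordinal.{u}) (D : Set (Set Ordinal.{u})) : Prop :=
  D ⊆ Ctbl A ∧ (∀ x ∈ Ctbl A, ∃ y ∈ D, x ⊆ y) ∧
    ∀ f : ℕ → Set Ordinal.{u}, Monotone f → (∀ n, f n ∈ D) → (⋃ n, f n) ∈ D

/-- `S` is a stationary subset of `[A]^{ℵ₀}`. -/
def StatCtbl (A : Set Ordinal.{u}) (S : Set (Set Ordinal.{u})) : Prop :=
  S ⊆ Ctbl A ∧ ∀ D, ClubCtbl A D → (S ∩ D).Nonempty

/-- Semistationary reflection at `l`: every stationary `S ⊆ [l]^{ℵ₀}` that is closed upward under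
`x ⊑ y` (`x ⊆ y` and `x ∩ ω₁ = y ∩ ω₁`) reflects to some `W ∈ [l]^{ℵ₁}` with `ω₁ ⊆ W`. -/
def SSRAt (l : Cardinal.{u}) : Prop :=
  ∀ S : Set (Set Ordinal.{u}), StatCtbl (Iio l.ord) S →
    (∀ x ∈ S, ∀ y ∈ Ctbl (Iio l.ord), x ⊆ y →
      x ∩ Iio (Ordinal.omega 1) = y ∩ Iio (Ordinal.omega 1) → y ∈ S) →
    ∃ W : Set Ordinal.{u}, W ⊆ Iio l.ord ∧ #W = aleph 1 ∧ Iio (Ordinal.omega 1) ⊆ W ∧
      StatCtbl W (S ∩ Ctbl W)

/-- `□(k, ω₁)` with width at most `ℵ₁`: a coherent sequence of nonempty families of at most `ℵ₁`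
clubs, without a thread. -/
def Square (k : Cardinal.{u}) : Prop :=
  ∃ C : Ordinal.{u} → Set (Set Ordinal.{u}),
    (∀ α < k.ord, Order.IsSuccLimit α →
      (C α).Nonempty ∧ #(C α) ≤ aleph 1 ∧ ∀ c ∈ C α, ClubIn α c) ∧
    (∀ α < k.ord, Order.IsSuccLimit α → ∀ c ∈ C α, ∀ β ∈ acc c, c ∩ Iio β ∈ C β) ∧
    ¬ ∃ D : Set Ordinal.{u}, ClubIn k.ord D ∧ ∀ α ∈ acc D, D ∩ Iio α ∈ C α

end Pool.Agent.P.MP_aee6d4_lc
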