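import Mathlib
import Pool.Agent.P.MP_aee6d4_lc.Defs

/-!
The club filter on a regular uncountable cardinal, Fodor's lemma, cofinal sequences.
-/

namespace Pool.Agent.P.MP_aee6d4_lc

universe u

open Set Cardinal Order

theorem bdd_set {ρ : Ordinal.{u}} {A : Set Ordinal.{u}} (hA : #A < Cardinal.lift.{u + 1} ρ.cof)
    (h : ∀ a ∈ A, a < ρ) : ∃ b < ρ, ∀ a ∈ A, a < b := by
  rw [Ordinal.lift_cof] at hA
  refine ⟨_, Ordinal.sSup_add_one_lt_of_lt_cof hA h, fun a ha => ?_⟩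
  refine lt_of_lt_of_le (lt_add_one a) (le_csSup ⟨ρ, ?_⟩ ⟨a, ha, rfl⟩)
  rintro _ ⟨b, hb, rfl⟩
  exact add_one_le_of_lt (h b hb)

theorem bdd_fam {ρ : Ordinal.{u}} {ι : Type (u + 1)} {s : Set ι} (f : ι → Ordinal.{u})
    (hs : #s < Cardinal.lift.{u + 1} ρ.cof) (h : ∀ i ∈ s, f i < ρ) :
    ∃ b < ρ, ∀ i ∈ s, f i < b := by
  obtain ⟨b, hb, h2⟩ := bdd_set (ρ := ρ) (A := f '' s) (mk_image_le.trans_lt hs)
    (by rintro _ ⟨i, hi, rfl⟩; exact h i hi)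
  exact ⟨b, hb, fun i hi => h2 _ ⟨i, hi, rfl⟩⟩

theorem bdd_countable {ρ : Ordinal.{u}} (hρ : ℵ₀ < ρ.cof) {A : Set Ordinal.{u}}
    (hA : A.Countable) (h : ∀ a ∈ A, a < ρ) : ∃ b < ρ, ∀ a ∈ A, a < b := by
  refine bdd_set ((le_aleph0_iff_set_countable.2 hA).trans_lt ?_) h
  rw [← lift_aleph0.{u + 1, u}, lift_lt]; exact hρ

theorem bdd_Iio {ρ θ : Ordinal.{u}} (hθ : θ.card < ρ.cof) (f : Ordinal.{u} → Ordinal.{u})
    (h : ∀ i < θ, f i < ρ) : ∃ b < ρ, ∀ i < θ, f i < b :=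
  bdd_fam (s := Iio θ) f (by rw [mk_Iio_ordinal, lift_lt]; exact hθ) h

theorem countable_Iio {ζ : Ordinal.{u}} (h : ζ < Ordinal.omega 1) : (Iio ζ).Countable := by
  rw [← le_aleph0_iff_set_countable, mk_Iio_ordinal, ← lift_aleph0.{u + 1, u}, lift_le]
  rw [← ord_aleph, lt_ord, ← succ_aleph0, lt_succ_iff] at h
  exact h

theorem lt_omega_one_of_countable {ζ : Ordinal.{u}} (h : (Iio ζ).Countable) :
    ζ < Ordinal.omega 1 := by
  rw [← le_aleph0_iff_set_countable, mk_Iio_ordinal, ← lift_aleph0.{u + 1, u}, lift_le] at h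
  rw [← ord_aleph, lt_ord, ← succ_aleph0, lt_succ_iff]
  exact h

theorem exists_cofinal {γ : Ordinal.{u}} (hγ : IsSuccLimit γ) :
    ∃ f : Ordinal.{u} → Ordinal.{u}, (∀ i < γ.cof.ord, f i < γ) ∧
      ∀ w < γ, ∃ i < γ.cof.ord, w < f i := by
  classical
  obtain ⟨s, hs, hc⟩ := Order.exists_cof_eq (Iio γ)
  have h1 : #s = #(Iio γ.cof.ord) := by
    rw [hc, Ordinal.cof_Iio, mk_Iio_ordinal, card_ord, Ordinal.lift_cof]
  obtain ⟨e⟩ := Cardinal.eq.1 h1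
  refine ⟨fun i => if h : i < γ.cof.ord then (e.symm ⟨i, h⟩).1.1 else 0, fun i hi => ?_,
    fun w hw => ?_⟩
  · simp only [dif_pos hi]; exact (e.symm ⟨i, hi⟩).1.2
  · obtain ⟨b, hb, hwb⟩ := hs ⟨w + 1, hγ.add_one_lt hw⟩
    refine ⟨(e ⟨b, hb⟩).1, (e ⟨b, hb⟩).2, ?_⟩
    have h2 : (e ⟨b, hb⟩).1 < γ.cof.ord := (e ⟨b, hb⟩).2
    simp only [dif_pos h2]
    have : e.symm ⟨(e ⟨b, hb⟩).1, h2⟩ = ⟨b, hb⟩ := e.symm_apply_apply _
    rw [this]
    exact lt_of_lt_of_le (lt_add_one w) hwb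

theorem exists_cofinal_nat {δ : Ordinal.{u}} (hδ : δ.cof = ℵ₀) :
    ∃ e : ℕ → Ordinal.{u}, (∀ n, e n < δ) ∧ ∀ w < δ, ∃ n, w < e n := by
  have hl : IsSuccLimit δ := by
    rw [← Ordinal.one_lt_cof_iff, hδ]; exact one_lt_aleph0
  obtain ⟨f, h1, h2⟩ := exists_cofinal hl
  rw [hδ, ord_aleph0] at h1 h2
  refine ⟨fun n => f n, fun n => h1 _ (Ordinal.natCast_lt_omega0 n), fun w hw => ?_⟩
  obtain ⟨i, hi, h3⟩ := h2 w hw
  obtain ⟨n, rfl⟩ := Ordinal.lt_omega0.1 hi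
  exact ⟨n, h3⟩

theorem IsLim.isSuccLimit {β : Ordinal.{u}} {C : Set Ordinal.{u}} (h : IsLim β C) :
    IsSuccLimit β := by
  rw [Ordinal.isSuccLimit_iff]
  refine ⟨h.1, isSuccPrelimit_of_succ_lt fun a ha => ?_⟩
  obtain ⟨c, _, h1, h2⟩ := h.2 a ha
  exact (succ_le_of_lt h1).trans_lt h2

theorem IsLim.mono {β : Ordinal.{u}} {C D : Set Ordinal.{u}} (h : IsLim β C)
    (hCD : ∀ c ∈ C, c < β → c ∈ D) : IsLim β D := by
  refine ⟨h.1, fun η hη => ?_⟩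
  obtain ⟨c, h0, h1, h2⟩ := h.2 η hη
  exact ⟨c, hCD c h0 h2, h1, h2⟩

theorem not_isLim {β : Ordinal.{u}} {C : Set Ordinal.{u}} (h0 : β ≠ 0) (h : ¬ IsLim β C) :
    ∃ η < β, ∀ c ∈ C, η < c → β ≤ c := by
  by_contra h1
  refine h ⟨h0, fun η hη => ?_⟩
  by_contra h2
  exact h1 ⟨η, hη, fun c hc h3 => not_lt.1 fun h4 => h2 ⟨c, hc, h3, h4⟩⟩

theorem ClubIn.sSup_eq {α : Ordinal.{u}} {C : Set Ordinal.{u}} (h : ClubIn α C)
    (hα : IsSuccLimit α) : sSup C = α := by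
  have hb : BddAbove C := ⟨α, fun c hc => (h.1 hc).le⟩
  refine le_antisymm (csSup_le' fun c hc => (h.1 hc).le) (le_of_forall_lt fun η hη => ?_)
  obtain ⟨c, hc, h1⟩ := h.2.1 (η + 1) (hα.add_one_lt hη)
  exact (lt_add_one η).trans_le (h1.trans (le_csSup hb hc))

theorem ClubIn.mem_acc {α β : Ordinal.{u}} {C : Set Ordinal.{u}} (h : ClubIn α C)
    (hα : IsSuccLimit α) : β ∈ acc C ↔ β < α ∧ IsLim β C := by
  rw [acc, h.sSup_eq hα]; rfl

theorem ClubIn.exists_gt {α η : Ordinal.{u}} {C : Set Ordinal.{u}} (h : ClubIn α C)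
    (hα : IsSuccLimit α) (hη : η < α) : ∃ c ∈ C, η < c ∧ c < α := by
  obtain ⟨c, hc, h1⟩ := h.2.1 (η + 1) (hα.add_one_lt hη)
  exact ⟨c, hc, (lt_add_one η).trans_le h1, h.1 hc⟩

/-- the supremum of a strictly increasing sequence below an ordinal of uncountable cofinality -/
theorem exists_sup_seq (w : ℕ → Ordinal.{u}) (hw : ∀ n, w n < w (n + 1)) :
    ∃ β, (∀ n, w n < β) ∧ ∀ η < β, ∃ n, η < w n := by
  refine ⟨⨆ n, w n, fun n => (hw n).trans_le (Ordinal.le_iSup w (n + 1)), fun η hη => ?_⟩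
  exact Ordinal.lt_iSup_iff.1 hη

/-- `P` holds on a club of `L` -/
def Cl (L : Ordinal.{u}) (P : Ordinal.{u} → Prop) : Prop :=
  ∃ g : Ordinal.{u} → Ordinal.{u}, (∀ η < L, g η < L) ∧
    ∀ ρ < L, ρ ≠ 0 → (∀ η < ρ, g η < ρ) → P ρ

/-- `P` holds on a stationary subset of `L` -/
def St (L : Ordinal.{u}) (P : Ordinal.{u} → Prop) : Prop := ¬ Cl L fun ρ => ¬ P ρ

variable {L : Ordinal.{u}} {P Q : Ordinal.{u} → Prop}

theorem Cl.mono (h : Cl L P) (hPQ : ∀ ρ < L, P ρ → Q ρ) : Cl L Q := by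
  obtain ⟨g, h1, h2⟩ := h
  exact ⟨g, h1, fun ρ hρ h0 h3 => hPQ ρ hρ (h2 ρ hρ h0 h3)⟩

theorem Cl.of_forall (h : ∀ ρ < L, P ρ) : Cl L P :=
  ⟨id, fun _ h => h, fun ρ hρ _ _ => h ρ hρ⟩

theorem Cl.and (h : Cl L P) (h' : Cl L Q) : Cl L fun ρ => P ρ ∧ Q ρ := by
  obtain ⟨g, h1, h2⟩ := h
  obtain ⟨g', h1', h2'⟩ := h'
  exact ⟨fun η => max (g η) (g' η), fun η hη => max_lt (h1 η hη) (h1' η hη),
    fun ρ hρ h0 h3 => ⟨h2 ρ hρ h0 fun η hη => (le_max_left _ _).trans_lt (h3 η hη),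
      h2' ρ hρ h0 fun η hη => (le_max_right _ _).trans_lt (h3 η hη)⟩⟩

theorem Cl.gt {θ : Ordinal.{u}} (h : θ < L) : Cl L fun ρ => θ < ρ :=
  ⟨fun _ => θ, fun _ _ => h, fun _ _ h0 h3 => h3 0 (pos_iff_ne_zero.2 h0)⟩

theorem Cl.closed {g : Ordinal.{u} → Ordinal.{u}} (h : ∀ η < L, g η < L) :
    Cl L fun ρ => ∀ η < ρ, g η < ρ :=
  ⟨g, h, fun _ _ _ h3 => h3⟩

theorem Cl.lim {A : Set Ordinal.{u}} (h : ∀ η < L, ∃ a ∈ A, η < a ∧ a < L) :
    Cl L fun ρ => IsLim ρ A := by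
  classical
  choose! g h1 h2 h3 using h
  exact ⟨g, h3, fun ρ hρ h0 h4 => ⟨h0, fun η hη =>
    ⟨g η, h1 η (hη.trans hρ), h2 η (hη.trans hρ), h4 η hη⟩⟩⟩

theorem St.mono (h : St L P) (hPQ : ∀ ρ < L, P ρ → Q ρ) : St L Q :=
  fun h1 => h (h1.mono fun ρ hρ h2 h3 => h2 (hPQ ρ hρ h3))

theorem St.and_cl (h : St L P) (h' : Cl L Q) : St L fun ρ => P ρ ∧ Q ρ :=
  fun h1 => h ((h1.and h').mono fun _ _ h2 h3 => h2.1 ⟨h3, h2.2⟩)

theorem St.exists (h : St L P) : ∃ ρ < L, P ρ := by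
  by_contra h1
  exact h (Cl.of_forall fun ρ hρ h2 => h1 ⟨ρ, hρ, h2⟩)

theorem St.exists_gt (h : St L P) {θ : Ordinal.{u}} (hθ : θ < L) : ∃ ρ < L, θ < ρ ∧ P ρ := by
  obtain ⟨ρ, h1, h2, h3⟩ := (h.and_cl (Cl.gt hθ)).exists
  exact ⟨ρ, h1, h3, h2⟩

/-- regular uncountable -/
def Reg (L : Ordinal.{u}) : Prop := ℵ₀ < L.cof ∧ ∀ θ < L, θ.card < L.cof

theorem Reg.lim (hL : Reg L) : IsSuccLimit L := by
  rw [← Ordinal.one_lt_cof_iff]; exact one_lt_aleph0.trans hL.1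

theorem Reg.omega_lt (hL : Reg L) : Ordinal.omega0 < L := by
  have := (Cardinal.ord_strictMono hL.1).trans_le (Ordinal.ord_cof_le L)
  rwa [ord_aleph0] at this

theorem Reg.bdd (hL : Reg L) {θ : Ordinal.{u}} (hθ : θ < L) (f : Ordinal.{u} → Ordinal.{u})
    (h : ∀ i ≤ θ, f i < L) : ∃ b < L, ∀ i ≤ θ, f i < b := by
  obtain ⟨b, hb, h2⟩ := bdd_Iio (hL.2 (θ + 1) (hL.lim.add_one_lt hθ)) f
    fun i hi => h i (le_of_lt_add_one hi)
  exact ⟨b, hb, fun i hi => h2 i (hi.trans_lt (lt_add_one θ))⟩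

theorem Cl.diag (hL : Reg L) {R : Ordinal.{u} → Ordinal.{u} → Prop} (h : ∀ i < L, Cl L (R i)) :
    Cl L fun ρ => ∀ i < ρ, R i ρ := by
  classical
  choose! g h1 h2 using h
  have : ∀ η < L, ∃ b < L, ∀ i ≤ η, ∀ j ≤ η, g i j < b := by
    intro η hη
    have : ∀ i ≤ η, ∃ b < L, ∀ j ≤ η, g i j < b := fun i hi =>
      hL.bdd hη (g i) fun j hj => h1 i (hi.trans_lt hη) j (hj.trans_lt hη)
    choose! b hb1 hb2 using this
    obtain ⟨B, hB1, hB2⟩ := hL.bdd hη b hb1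
    exact ⟨B, hB1, fun i hi j hj => (hb2 i hi j hj).trans (hB2 i hi)⟩
  choose! G hG1 hG2 using this
  refine ⟨G, hG1, fun ρ hρ h0 h3 i hi => h2 i (hi.trans hρ) ρ hρ h0 fun j hj => ?_⟩
  have h4 : max i j < ρ := max_lt hi hj
  exact (hG2 _ (h4.trans hρ) i (le_max_left _ _) j (le_max_right _ _)).trans (h3 _ h4)

theorem Cl.forall_lt (hL : Reg L) {θ : Ordinal.{u}} (hθ : θ < L)
    {R : Ordinal.{u} → Ordinal.{u} → Prop} (h : ∀ i < θ, Cl L (R i)) :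
    Cl L fun ρ => ∀ i < θ, R i ρ := by
  have h1 : Cl L fun ρ => ∀ i < ρ, i < θ → R i ρ := by
    refine Cl.diag hL fun i _ => ?_
    by_cases hi : i < θ
    · exact (h i hi).mono fun _ _ h2 _ => h2
    · exact Cl.of_forall fun _ _ h2 => absurd h2 hi
  exact (h1.and (Cl.gt hθ)).mono fun ρ _ h2 i hi => h2.1 i (hi.trans h2.2) hi

theorem Cl.forall_nat (hL : Reg L) {R : ℕ → Ordinal.{u} → Prop} (h : ∀ n, Cl L (R n)) :
    Cl L fun ρ => ∀ n, R n ρ := by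
  have h1 : Cl L fun ρ => ∀ i < Ordinal.omega0, ∀ n : ℕ, (n : Ordinal.{u}) = i → R n ρ := by
    refine Cl.forall_lt hL hL.omega_lt fun i hi => ?_
    obtain ⟨n, rfl⟩ := Ordinal.lt_omega0.1 hi
    refine (h n).mono fun _ _ h2 m hm => ?_
    have : m = n := by exact_mod_cast hm
    rw [this]; exact h2
  exact h1.mono fun ρ _ h2 n => h2 n (Ordinal.natCast_lt_omega0 n) n rfl

/-- Fodor's lemma -/
theorem St.fodor (hL : Reg L) (h : St L P) {R : Ordinal.{u} → Ordinal.{u} → Prop}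
    (hR : ∀ ρ < L, P ρ → ∃ v < ρ, R v ρ) : ∃ v < L, St L (R v) := by
  by_contra h1
  have h2 : ∀ v < L, Cl L fun ρ => ¬ R v ρ := fun v hv => by
    by_contra h3
    exact h1 ⟨v, hv, h3⟩
  refine h ((Cl.diag hL h2).mono fun ρ hρ h3 h4 => ?_)
  obtain ⟨v, hv, h5⟩ := hR ρ hρ h4
  exact h3 v hv h5

theorem St.seq (h : St L P) (θ : Ordinal.{u}) (hθ : θ < L) :
    ∃ d : ℕ → Ordinal.{u}, θ < d 0 ∧ (∀ n, d n < d (n + 1)) ∧ ∀ n, d n < L ∧ P (d n) := by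
  classical
  have := fun η (hη : η < L) => h.exists_gt hη
  choose! g h1 h2 h3 using this
  let d : ℕ → Ordinal.{u} := fun n => g^[n + 1] θ
  have hd : ∀ n, g^[n] θ < L := by
    intro n
    induction n with
    | zero => exact hθ
    | succ n ih => rw [Function.iterate_succ_apply']; exact h1 _ ih
  refine ⟨d, h2 θ hθ, fun n => ?_, fun n => ⟨hd _, ?_⟩⟩
  · simp only [d]; rw [Function.iterate_succ_apply' g (n + 1)]; exact h2 _ (hd _)
  · simp only [d]; rw [Function.iterate_succ_apply']; exact h3 _ (hd _)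

theorem reg_ord {k : Cardinal.{u}} (hk : k.IsRegular) (h0 : ℵ₀ < k) : Reg k.ord :=
  ⟨by rw [hk.cof_ord]; exact h0, fun θ hθ => by rw [hk.cof_ord]; exact lt_ord.1 hθ⟩

theorem st_cof {k m : Cardinal.{u}} (hk : k.IsRegular) (hm : m.IsRegular) (hmk : m < k) :
    St k.ord fun ρ => ρ.cof = m := by
  have h0 : ℵ₀ < k := hm.aleph0_le.trans_lt hmk
  have hL := reg_ord hk h0
  rintro ⟨g, h1, h2⟩
  let G : Ordinal.{u} → Ordinal.{u} := fun η => ⨆ i : Iic η, g i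
  have hG1 : ∀ η < k.ord, G η < k.ord := by
    intro η hη
    obtain ⟨b, hb, h3⟩ := hL.bdd hη g fun i hi => h1 i (hi.trans_lt hη)
    exact (Ordinal.iSup_le fun i : Iic η => (h3 i i.2).le).trans_lt hb
  have hG2 : ∀ η j, j ≤ η → g j ≤ G η := fun η j hj =>
    Ordinal.le_iSup (fun i : Iic η => g i) ⟨j, hj⟩
  have hml : IsSuccLimit m.ord := isSuccLimit_ord hm.aleph0_le
  have hn := Ordinal.isNormal_deriv G
  refine h2 (Ordinal.deriv G m.ord) (deriv_lt_ord hk h0.ne' hG1 (ord_strictMono hmk)) ?_ ?_ ?_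
  · exact (hml.pos.trans_le hn.strictMono.le_apply).ne'
  · intro η hη
    obtain ⟨i, hi, h3⟩ := (hn.lt_iff_exists_lt hml).1 hη
    have h4 : g η ≤ Ordinal.deriv G (i + 1) := by
      rw [Ordinal.deriv_add_one]
      exact (hG2 _ η (h3.le.trans (le_succ _))).trans (Ordinal.iterate_le_nfp G _ 1)
    exact h4.trans_lt (hn.strictMono (hml.add_one_lt hi))
  · exact (Ordinal.cof_map_of_isNormal hn hml).trans hm.cof_ord

/-- diagonal intersection over a type of codes -/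
def Diag (L : Ordinal.{u}) {M : Type (u + 1)} (b : M → Ordinal.{u} → Prop) : Prop :=
  ∀ R : M → Ordinal.{u} → Prop, (∀ m, Cl L (R m)) → Cl L fun ρ => ∀ m, b m ρ → R m ρ

theorem diag_ord (hL : Reg L) : Diag L fun (i ρ : Ordinal.{u}) => i < ρ :=
  fun _ h => Cl.diag hL fun i _ => h i

theorem Diag.prod {M N : Type (u + 1)} {b : M → Ordinal.{u} → Prop} {c : N → Ordinal.{u} → Prop}
    (hb : Diag L b) (hc : Diag L c) : Diag L fun (p : M × N) ρ => b p.1 ρ ∧ c p.2 ρ := by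
  intro R h
  have := hb (fun m ρ => ∀ n, c n ρ → R (m, n) ρ) fun m => hc _ fun n => h (m, n)
  exact this.mono fun ρ _ h1 p hp => h1 p.1 hp.1 p.2 hp.2

theorem Diag.list (hL : Reg L) {M : Type (u + 1)} {b : M → Ordinal.{u} → Prop} (hb : Diag L b) :
    Diag L fun (l : List M) ρ => ∀ m ∈ l, b m ρ := by
  have key : ∀ n : ℕ, ∀ R : List M → Ordinal.{u} → Prop, (∀ l, Cl L (R l)) →
      Cl L fun ρ => ∀ l : List M, l.length = n → (∀ m ∈ l, b m ρ) → R l ρ := by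
    intro n
    induction n with
    | zero =>
      intro R h
      refine (h []).mono fun ρ _ h1 l hl _ => ?_
      rw [List.length_eq_zero_iff.1 hl]; exact h1
    | succ n ih =>
      intro R h
      have := hb (fun m ρ => ∀ l : List M, l.length = n → (∀ m ∈ l, b m ρ) → R (m :: l) ρ)
        fun m => ih _ fun l => h (m :: l)
      refine this.mono fun ρ _ h1 l hl h2 => ?_
      cases l with
      | nil => simp at hl
      | cons m l =>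
        exact h1 m (h2 m (by simp)) l (by simpa using hl) fun m' hm' => h2 m' (by simp [hm'])
  intro R h
  exact (Cl.forall_nat hL fun n => key n R h).mono fun ρ _ h1 l hl => h1 _ l rfl hl

/-- a function with unboundedly large values below `ω₁` on stationary sets of cofinality `ω` -/
theorem exists_split {k : Cardinal.{u}} (hk : k.IsRegular) (h1 : aleph 1 < k) :
    ∃ h : Ordinal.{u} → Ordinal.{u}, (∀ δ, h δ < Ordinal.omega 1) ∧
      ∀ ζ < Ordinal.omega 1, St k.ord fun δ => δ.cof = ℵ₀ ∧ ζ ≤ h δ := by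
  classical
  have h0 : ℵ₀ < k := aleph0_lt_aleph_one.trans h1
  have hL := reg_ord hk h0
  have hS := st_cof hk isRegular_aleph0 h0
  have := fun (δ : Ordinal.{u}) (hδ : δ.cof = ℵ₀) => exists_cofinal_nat hδ
  choose! e he1 he2 using this
  have hn : ∃ n, ∀ η < k.ord, St k.ord fun δ => δ.cof = ℵ₀ ∧ η < e δ n := by
    by_contra hc
    have : ∀ n, ∃ η < k.ord, Cl k.ord fun δ => ¬ (δ.cof = ℵ₀ ∧ η < e δ n) := by
      intro n
      by_contra h2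
      exact hc ⟨n, fun η hη h3 => h2 ⟨η, hη, h3⟩⟩
    choose η hη1 hη2 using this
    obtain ⟨b, hb, hb2⟩ := bdd_countable hL.1 (countable_range η)
      (by rintro _ ⟨n, rfl⟩; exact hη1 n)
    refine hS (((Cl.forall_nat hL hη2).and (Cl.gt hb)).mono fun δ _ h2 h3 => ?_)
    obtain ⟨n, h4⟩ := he2 δ h3 b h2.2
    exact h2.1 n ⟨h3, (hb2 _ ⟨n, rfl⟩).trans h4⟩
  obtain ⟨n, hn⟩ := hn
  let V : Set Ordinal.{u} := {v | v < k.ord ∧ St k.ord fun δ => δ.cof = ℵ₀ ∧ e δ n = v}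
  have hV : ∀ η < k.ord, ∃ v ∈ V, η < v := by
    intro η hη
    obtain ⟨v, hv, h2⟩ := (hn η hη).fodor hL
      (R := fun v δ => (δ.cof = ℵ₀ ∧ e δ n = v) ∧ η < v)
      fun δ _ h2 => ⟨e δ n, he1 δ h2.1 n, ⟨h2.1, rfl⟩, h2.2⟩
    obtain ⟨_, _, h3⟩ := h2.exists
    exact ⟨v, ⟨hv, h2.mono fun _ _ h4 => h4.1⟩, h3.2⟩
  have hc : #(Iio (Ordinal.omega.{u} 1)) ≤ #V := by
    by_contra h2
    rw [not_le, mk_Iio_ordinal, Ordinal.card_omega] at h2
    obtain ⟨b, hb, h3⟩ := bdd_set (ρ := k.ord) (A := V)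
      (h2.trans (by rw [hk.cof_ord, lift_lt]; exact h1)) fun v hv => hv.1
    obtain ⟨v, hv, h4⟩ := hV b hb
    exact (h3 v hv).not_gt h4
  obtain ⟨j⟩ := (Cardinal.le_def _ _).1 hc
  let f : Ordinal.{u} → Ordinal.{u} := fun v =>
    if h : ∃ i, (j i).1 = v then (Classical.choose h).1 else 0
  refine ⟨fun δ => f (e δ n), fun δ => ?_, fun ζ hζ => ?_⟩
  · simp only [f]
    split_ifs with h2
    · exact (Classical.choose h2).2
    · exact Ordinal.omega_pos 1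
  · refine (j ⟨ζ, hζ⟩).2.2.mono fun δ _ h2 => ⟨h2.1, ?_⟩
    have h3 : ∃ i, (j i).1 = e δ n := ⟨_, h2.2.symm⟩
    simp only [f, dif_pos h3]
    have h4 := Classical.choose_spec h3
    have : Classical.choose h3 = ⟨ζ, hζ⟩ := j.injective (Subtype.ext (h4.trans h2.2))
    rw [this]

end Pool.Agent.P.MP_aee6d4_lc
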