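import Mathlib
import Pool.Agent.P.MP_aee6d4_lc.Basic

/-!
Closure under finitary set functions and the interval game of Velickovic.
-/

namespace Pool.Agent.P.MP_aee6d4_lc

universe u

open Set Cardinal Order

/-- `B` is closed under `G` -/
def Closed (G : Set Ordinal.{u} → Set Ordinal.{u}) (B : Set Ordinal.{u}) : Prop :=
  ∀ e : Set Ordinal.{u}, e.Finite → e ⊆ B → G e ⊆ B

/-- closure of `A` under `G` -/
def cl (G : Set Ordinal.{u} → Set Ordinal.{u}) (A : Set Ordinal.{u}) : Set Ordinal.{u} :=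
  ⋂₀ {B | A ⊆ B ∧ Closed G B}

variable {G : Set Ordinal.{u} → Set Ordinal.{u}}

theorem subset_cl (A : Set Ordinal.{u}) : A ⊆ cl G A := fun _ ha _ hB => hB.1 ha

theorem cl_min {A B : Set Ordinal.{u}} (h : A ⊆ B) (hB : Closed G B) : cl G A ⊆ B :=
  fun _ ha => ha B ⟨h, hB⟩

theorem closed_cl (A : Set Ordinal.{u}) : Closed G (cl G A) :=
  fun e he h _ ha _ hB => hB.2 e he (h.trans (cl_min hB.1 hB.2)) ha

theorem cl_mono {A B : Set Ordinal.{u}} (h : A ⊆ B) : cl G A ⊆ cl G B :=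
  cl_min (h.trans (subset_cl B)) (closed_cl B)

theorem finite_subset_iUnion_mono {f : ℕ → Set Ordinal.{u}} (hf : Monotone f)
    {e : Set Ordinal.{u}} (he : e.Finite) (h : e ⊆ ⋃ n, f n) : ∃ n, e ⊆ f n := by
  induction e, he using Set.Finite.induction_on with
  | empty => exact ⟨0, empty_subset _⟩
  | insert _ _ ih =>
    rw [insert_subset_iff] at h
    obtain ⟨n, hn⟩ := ih h.2
    obtain ⟨m, hm⟩ := mem_iUnion.1 h.1
    exact ⟨max n m, insert_subset (hf (le_max_right n m) hm) (hn.trans (hf (le_max_left n m)))⟩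

theorem closed_iUnion {f : ℕ → Set Ordinal.{u}} (hf : Monotone f) (h : ∀ n, Closed G (f n)) :
    Closed G (⋃ n, f n) := by
  intro e he h1
  obtain ⟨n, hn⟩ := finite_subset_iUnion_mono hf he h1
  exact (h n e he hn).trans (subset_iUnion f n)

theorem countable_cl (hG : ∀ e : Set Ordinal.{u}, e.Finite → (G e).Countable)
    {A : Set Ordinal.{u}} (hA : A.Countable) : (cl G A).Countable := by
  let step : Set Ordinal.{u} → Set Ordinal.{u} := fun B => B ∪ ⋃ e ∈ {e | e.Finite ∧ e ⊆ B}, G e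
  let f : ℕ → Set Ordinal.{u} := fun n => step^[n] A
  have hs : ∀ n, f (n + 1) = step (f n) := fun n => Function.iterate_succ_apply' _ _ _
  have hc : ∀ n, (f n).Countable := by
    intro n
    induction n with
    | zero => exact hA
    | succ n ih =>
      rw [hs]
      exact ih.union ((countable_ofPred_finite_subset ih).biUnion fun e he => hG e he.1)
  have hm : Monotone f := monotone_nat_of_le_succ fun n => by rw [hs]; exact subset_union_left
  refine (countable_iUnion hc).mono (cl_min (subset_iUnion f 0) fun e he h => ?_)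
  obtain ⟨n, hn⟩ := finite_subset_iUnion_mono hm he h
  refine subset_trans ?_ (subset_iUnion f (n + 1))
  rw [hs]
  exact subset_union_of_subset_right 
    (subset_biUnion_of_mem (u := G) (show e ∈ {e | e.Finite ∧ e ⊆ f n} from ⟨he, hn⟩)) _

theorem cl_closed_Iio {L : Ordinal.{u}} (hL : Reg L)
    (hG : ∀ e : Set Ordinal.{u}, e.Finite → (G e).Countable) (hGL : Closed G (Iio L)) :
    Cl L fun ρ => Closed G (Iio ρ) := by
  have h1 := ((diag_ord hL).list hL) (fun l ρ => (∀ a ∈ l, a < L) → G {a | a ∈ l} ⊆ Iio ρ) ?_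
  · refine h1.mono fun ρ hρ h2 e he h3 => ?_
    have e1 : {a | a ∈ he.toFinset.toList} = e := by ext a; simp
    have := h2 he.toFinset.toList (fun a ha => h3 (by simpa using ha))
      (fun a ha => (h3 (by simpa using ha) : a < ρ).trans hρ)
    rwa [e1] at this
  · intro l
    by_cases h : ∀ a ∈ l, a < L
    · obtain ⟨b, hb, h2⟩ := bdd_countable hL.1 (hG _ (List.finite_toSet l))
        (hGL _ (List.finite_toSet l) h)
      exact (Cl.gt hb).mono fun ρ _ h3 _ a ha => (h2 a ha).trans h3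
    · exact Cl.of_forall fun _ _ h2 => absurd h2 h

/-- the first `n` moves of a play -/
def pre (s : ℕ → Ordinal.{u} × Ordinal.{u}) (n : ℕ) : List (Ordinal.{u} × Ordinal.{u}) :=
  (List.range n).map s

theorem pre_length (s : ℕ → Ordinal.{u} × Ordinal.{u}) (n : ℕ) : (pre s n).length = n := by
  simp [pre]

theorem pre_succ (s : ℕ → Ordinal.{u} × Ordinal.{u}) (n : ℕ) :
    pre s (n + 1) = pre s n ++ [s n] := by
  simp [pre, List.range_succ]

theorem pre_getD (s : ℕ → Ordinal.{u} × Ordinal.{u}) {n i : ℕ} (h : i < n) :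
    (pre s n).getD i (0, 0) = s i := by
  simp [pre, List.getD_eq_getElem?_getD, h]

theorem mem_pre {s : ℕ → Ordinal.{u} × Ordinal.{u}} {n : ℕ} {m : Ordinal.{u} × Ordinal.{u}}
    (h : m ∈ pre s n) : ∃ i < n, s i = m := by
  simpa [pre] using h

theorem eq_of_pre_eq {s t : ℕ → Ordinal.{u} × Ordinal.{u}} {n i : ℕ} (h : pre s n = pre t n)
    (hi : i < n) : s i = t i := by
  rw [← pre_getD s hi, h, pre_getD t hi]

/-- the set produced by a play -/
def outcome (G : Set Ordinal.{u} → Set Ordinal.{u}) (ζ : Ordinal.{u})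
    (s : ℕ → Ordinal.{u} × Ordinal.{u}) : Set Ordinal.{u} :=
  cl G (Iio ζ ∪ range fun n => (s n).1)

/-- a play won by the first player -/
def GoodPlay (G : Set Ordinal.{u} → Set Ordinal.{u}) (L ζ : Ordinal.{u})
    (s : ℕ → Ordinal.{u} × Ordinal.{u}) : Prop :=
  (∀ n, (s n).1.cof = aleph 1 ∧ (s n).1 ≤ (s n).2 ∧ (s n).2 < L) ∧
    (∀ a ∈ outcome G ζ s, a < Ordinal.omega 1 → a < ζ) ∧
    ∀ n, ∀ a ∈ outcome G ζ s, a < (s (n + 1)).1 → a < (s n).2

/-- the second player has no winning strategy from position `p` -/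
def Win (G : Set Ordinal.{u} → Set Ordinal.{u}) (L ζ : Ordinal.{u})
    (p : List (Ordinal.{u} × Ordinal.{u})) : Prop :=
  ∀ τ : List (Ordinal.{u} × Ordinal.{u}) → Ordinal.{u}, (∀ q, τ q < L) →
    ∃ s, pre s p.length = p ∧ GoodPlay G L ζ s ∧ ∀ n, p.length ≤ n → τ (pre s n) < (s n).1

variable {L ζ : Ordinal.{u}}

theorem Win.step {p : List (Ordinal.{u} × Ordinal.{u})} (h : Win G L ζ p) {γ : Ordinal.{u}}
    (hγ : γ < L) : ∃ m : Ordinal.{u} × Ordinal.{u}, γ < m.1 ∧ m.1 ≤ m.2 ∧ m.2 < L ∧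
      Win G L ζ (p ++ [m]) := by
  classical
  by_contra hc
  have : ∀ m : Ordinal.{u} × Ordinal.{u}, ∃ τ : List (Ordinal.{u} × Ordinal.{u}) → Ordinal.{u},
      (∀ q, τ q < L) ∧ (γ < m.1 → m.1 ≤ m.2 → m.2 < L → ¬ ∃ s, pre s (p ++ [m]).length = p ++ [m] ∧
        GoodPlay G L ζ s ∧ ∀ n, (p ++ [m]).length ≤ n → τ (pre s n) < (s n).1) := by
    intro m
    by_cases c : γ < m.1 ∧ m.1 ≤ m.2 ∧ m.2 < L
    · have : ¬ Win G L ζ (p ++ [m]) := fun h1 => hc ⟨m, c.1, c.2.1, c.2.2, h1⟩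
      unfold Win at this
      rw [not_forall] at this
      obtain ⟨τ, hτ⟩ := this
      rw [Classical.not_imp] at hτ
      exact ⟨τ, hτ.1, fun _ _ _ => hτ.2⟩
    · exact ⟨fun _ => γ, fun _ => hγ, fun c1 c2 c3 => absurd ⟨c1, c2, c3⟩ c⟩
  choose τ h1 h2 using this
  obtain ⟨s, s1, s2, s3⟩ := h (fun q => if q.length ≤ p.length then γ else τ (q.getD p.length (0, 0)) q)
    fun q => by split_ifs; exacts [hγ, h1 _ _]
  have h3 := s3 p.length le_rfl
  rw [if_pos (pre_length _ _).le] at h3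
  refine h2 (s p.length) h3 (s2.1 _).2.1 (s2.1 _).2.2 ⟨s, ?_, s2, fun n hn => ?_⟩
  · rw [List.length_append, List.length_singleton, pre_succ, s1]
  · rw [List.length_append, List.length_singleton] at hn
    have h4 := s3 n (by omega)
    rwa [if_neg (by rw [pre_length]; omega), pre_getD s (by omega)] at h4

theorem good_of_win (hL : 0 < L) {s : ℕ → Ordinal.{u} × Ordinal.{u}}
    (h : ∀ n, Win G L ζ (pre s n)) : GoodPlay G L ζ s := by
  have : ∀ n, ∃ t, (∀ i < n, t i = s i) ∧ GoodPlay G L ζ t := by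
    intro n
    obtain ⟨t, t1, t2, _⟩ := h n (fun _ => 0) fun _ => hL
    rw [pre_length] at t1
    exact ⟨t, fun i hi => eq_of_pre_eq t1 hi, t2⟩
  choose t t1 t2 using this
  let f : ℕ → Set Ordinal.{u} := fun k => cl G (Iio ζ ∪ (fun n => (s n).1) '' Iio k)
  have hf : Monotone f := fun k k' hk =>
    cl_mono (union_subset_union_right _ (image_mono (Iio_subset_Iio hk)))
  have h1 : outcome G ζ s ⊆ ⋃ k, f k := by
    refine cl_min (union_subset ?_ ?_) (closed_iUnion hf fun k => closed_cl _)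
    · exact (subset_union_left.trans (subset_cl _)).trans (subset_iUnion f 0)
    · rintro _ ⟨n, rfl⟩
      exact mem_iUnion.2 ⟨n + 1, subset_cl _ (Or.inr ⟨n, Nat.lt_succ_self n, rfl⟩)⟩
  have h2 : ∀ k m, k ≤ m → f k ⊆ outcome G ζ (t m) := by
    intro k m hkm
    refine cl_mono (union_subset_union_right _ ?_)
    rintro _ ⟨n, hn, rfl⟩
    exact ⟨n, by simp only; rw [t1 m n (lt_of_lt_of_le hn hkm)]⟩
  refine ⟨fun n => ?_, fun a ha h3 => ?_, fun n a ha h3 => ?_⟩
  · rw [← t1 (n + 1) n (Nat.lt_succ_self n)]; exact (t2 _).1 n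
  · obtain ⟨k, hk⟩ := mem_iUnion.1 (h1 ha)
    exact (t2 k).2.1 a (h2 k k le_rfl hk) h3
  · obtain ⟨k, hk⟩ := mem_iUnion.1 (h1 ha)
    have h4 := (t2 (max k (n + 2))).2.2 n a (h2 k _ (le_max_left _ _) hk)
    rw [t1 _ (n + 1) (lt_max_of_lt_right (by omega)), t1 _ n (lt_max_of_lt_right (by omega))] at h4
    exact h4 h3

theorem exists_trace {x : Set Ordinal.{u}} (hx : x.Countable)
    (h : ∀ i ∈ x, i < Ordinal.omega 1 → Iio i ⊆ x) :
    ∃ ζ < Ordinal.omega 1, Iio ζ ⊆ x ∧ ∀ a ∈ x, a < Ordinal.omega 1 → a < ζ := by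
  have hne : (Iio (Ordinal.omega 1) \ x).Nonempty := by
    by_contra h1
    rw [not_nonempty_iff_eq_empty, sdiff_eq_empty] at h1
    exact lt_irrefl _ (lt_omega_one_of_countable (hx.mono h1))
  have hm := csInf_mem hne
  refine ⟨_, hm.1, fun a ha => ?_, fun a ha h1 => ?_⟩
  · by_contra h1
    exact (csInf_le' (show a ∈ Iio (Ordinal.omega 1) \ x from ⟨lt_trans (mem_Iio.1 ha) (mem_Iio.1 hm.1), h1⟩)).not_gt ha
  · by_contra h2
    rcases (not_lt.1 h2).eq_or_lt with h3 | h3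
    · exact hm.2 (h3 ▸ ha)
    · exact hm.2 (h a ha h1 h3)

theorem exists_win {k : Cardinal.{u}} (hk : k.IsRegular) (h1 : aleph 1 < k)
    (hG : ∀ e : Set Ordinal.{u}, e.Finite → (G e).Countable) :
    ∃ ζ < Ordinal.omega 1, Win G k.ord ζ [] := by
  classical
  have hL := reg_ord hk (aleph0_lt_aleph_one.trans h1)
  have hω : Ordinal.omega 1 < k.ord := by rw [← ord_aleph]; exact ord_strictMono h1
  by_contra hc
  have : ∀ ζ < Ordinal.omega 1, ∃ τ : List (Ordinal.{u} × Ordinal.{u}) → Ordinal.{u},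
      (∀ q, τ q < k.ord) ∧ ¬ ∃ s, GoodPlay G k.ord ζ s ∧ ∀ n, τ (pre s n) < (s n).1 := by
    intro ζ hζ
    have : ¬ Win G k.ord ζ [] := fun h2 => hc ⟨ζ, hζ, h2⟩
    unfold Win at this
    rw [not_forall] at this
    obtain ⟨τ, hτ⟩ := this
    rw [Classical.not_imp] at hτ
    exact ⟨τ, hτ.1, fun ⟨s, s1, s2⟩ => hτ.2 ⟨s, rfl, s1, fun n _ => s2 n⟩⟩
  choose! τ t1 t2 using this
  have hcl := (((diag_ord hL).prod (diag_ord hL)).list hL)
    (fun p ρ => ∀ ζ < Ordinal.omega 1, τ ζ p < ρ)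
    fun p => Cl.forall_lt hL hω fun ζ hζ => Cl.gt (t1 ζ hζ p)
  obtain ⟨d, _, d1, d2⟩ := ((st_cof hk isRegular_aleph_one h1).and_cl hcl).seq 0 hL.lim.pos
  let G' : Set Ordinal.{u} → Set Ordinal.{u} := fun e =>
    G e ∪ ⋃ i ∈ e ∩ Iio (Ordinal.omega 1), Iio i
  have hG' : ∀ e : Set Ordinal.{u}, e.Finite → (G' e).Countable := fun e he =>
    (hG e he).union ((he.countable.mono inter_subset_left).biUnion fun i hi => countable_Iio hi.2)
  let x := cl G' (range d)
  have hx : x.Countable := countable_cl hG' (countable_range d)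
  have hxG : Closed G x := fun e he h2 => subset_union_left.trans (closed_cl _ e he h2)
  obtain ⟨ζ, hζ, z1, z2⟩ := exists_trace hx fun i hi h2 => by
    refine subset_trans ?_ (closed_cl (G := G') (range d) {i} (finite_singleton i)
      (singleton_subset_iff.2 hi))
    exact subset_union_of_subset_right
      (subset_biUnion_of_mem (u := fun i => Iio i) (show i ∈ {i} ∩ Iio _ from ⟨rfl, h2⟩)) _
  have : ∀ n, ∃ b < d (n + 1), ∀ a ∈ x ∩ Iio (d (n + 1)), a < b := fun n =>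
    bdd_countable (by rw [(d2 _).2.1]; exact aleph0_lt_aleph_one) (hx.mono inter_subset_left)
      fun a ha => ha.2
  choose b b1 b2 using this
  have hdx : ∀ n, d n ∈ x := fun n => subset_cl _ ⟨n, rfl⟩
  have hdb : ∀ n, d n < b n := fun n => b2 n _ ⟨hdx n, d1 n⟩
  have hdm : StrictMono d := strictMono_nat_of_lt_succ d1
  have hout : outcome G ζ (fun n => (d n, b n)) ⊆ x :=
    cl_min (union_subset z1 (by rintro _ ⟨n, rfl⟩; exact hdx n)) hxG
  refine t2 ζ hζ ⟨fun n => (d n, b n), ⟨fun n => ⟨(d2 n).2.1, (hdb n).le,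
    (b1 n).trans (d2 _).1⟩, fun a ha => z2 a (hout ha), fun n a ha h2 => b2 n a ⟨hout ha, h2⟩⟩,
    fun n => (d2 n).2.2 _ (fun m hm => ?_) ζ hζ⟩
  obtain ⟨i, hi, rfl⟩ := mem_pre hm
  exact ⟨hdm hi, (b1 i).trans_le (hdm.monotone hi)⟩

end Pool.Agent.P.MP_aee6d4_lc
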