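import Mathlib
import Pool.Agent.P.MP_aee6d4_lc.Basic

/-!
A global index below `ω₁` for the clubs of a square sequence of width `ω₁`, and avoidance of
finitely many indices.
-/

namespace Pool.Agent.P.MP_aee6d4_lc

universe u

open Set Cardinal Order

/-- a coherent sequence of width at most `ℵ₁` without thread -/
structure Sq (L : Ordinal.{u}) (C : Ordinal.{u} → Set (Set Ordinal.{u})) : Prop where
  ne : ∀ α < L, IsSuccLimit α → (C α).Nonempty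
  card : ∀ α < L, IsSuccLimit α → #(C α) ≤ aleph 1
  club : ∀ α < L, IsSuccLimit α → ∀ c ∈ C α, ClubIn α c
  coh : ∀ α < L, IsSuccLimit α → ∀ c ∈ C α, ∀ β < α, IsLim β c → c ∩ Iio β ∈ C β
  nothread : ¬ ∃ D : Set Ordinal.{u}, ClubIn L D ∧ ∀ α < L, IsLim α D → D ∩ Iio α ∈ C α

theorem sq_of_square {k : Cardinal.{u}} (hk : ℵ₀ ≤ k) (h : Square k) : ∃ C, Sq k.ord C := by
  obtain ⟨C, h1, h2, h3⟩ := h
  refine ⟨C, fun α a b => (h1 α a b).1, fun α a b => (h1 α a b).2.1, fun α a b => (h1 α a b).2.2,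
    fun α a b c hc β hβ hl => h2 α a b c hc β ((((h1 α a b).2.2 c hc).mem_acc b).2 ⟨hβ, hl⟩), ?_⟩
  rintro ⟨D, hD, h4⟩
  refine h3 ⟨D, hD, fun α hα => ?_⟩
  rw [hD.mem_acc (isSuccLimit_ord hk)] at hα
  exact h4 α hα.1 hα.2

/-- the data of a global index -/
structure Idx (L : Ordinal.{u}) (C : Ordinal.{u} → Set (Set Ordinal.{u}))
    (ι : Set Ordinal.{u} → Ordinal.{u}) (b : Ordinal.{u}) (S : Ordinal.{u} → Prop) : Prop where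
  lt : b < L
  st : St L S
  lt_omega : ∀ c, ι c < Ordinal.omega 1
  inter : ∀ c a, b ≤ a → ι (c ∩ Iio a) = ι c
  cof : ∀ ρ, S ρ → ρ.cof = aleph 2
  gt : ∀ ρ, S ρ → b < ρ
  inj : ∀ ρ, S ρ → InjOn ι (C ρ)

theorem aleph_one_lt_two : (aleph 1 : Cardinal.{u}) < aleph 2 := by
  rw [aleph_lt_aleph]; exact one_lt_two

theorem lim_of_cof_two {ρ : Ordinal.{u}} (h : ρ.cof = aleph 2) : IsSuccLimit ρ := by
  rw [← Ordinal.one_lt_cof_iff, h]; exact one_lt_aleph0.trans_le (aleph0_le_aleph 2)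

theorem aleph0_lt_cof_two {ρ : Ordinal.{u}} (h : ρ.cof = aleph 2) : ℵ₀ < ρ.cof := by
  rw [h]; exact aleph0_lt_aleph_one.trans aleph_one_lt_two

theorem lt_lift_cof_two {ρ : Ordinal.{u}} (h : ρ.cof = aleph 2) :
    (aleph 1 : Cardinal.{u + 1}) < Cardinal.lift.{u + 1} ρ.cof := by
  rw [h, lift_aleph]
  simp

theorem isRegular_aleph_two : (aleph 2 : Cardinal.{u}).IsRegular := by
  have := isRegular_aleph_add_one (1 : Ordinal.{u})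
  rwa [one_add_one_eq_two] at this

variable {L : Ordinal.{u}} {C : Ordinal.{u} → Set (Set Ordinal.{u})}

theorem exists_sep (hC : Sq L C) {ρ : Ordinal.{u}} (hρ : ρ < L) (hc : ρ.cof = aleph 2) :
    ∃ v < ρ, (∀ D ∈ C ρ, IsLim v D) ∧ InjOn (fun D => D ∩ Iio v) (C ρ) := by
  classical
  have hl := lim_of_cof_two hc
  have hcard := (hC.card ρ hρ hl).trans_lt (lt_lift_cof_two hc)
  have h1 : ∀ p ∈ C ρ ×ˢ C ρ, ∃ d < ρ, ((d ∈ p.1 ↔ d ∈ p.2) → p.1 = p.2) := by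
    intro p hp
    by_cases e : p.1 = p.2
    · exact ⟨0, hl.pos, fun _ => e⟩
    · obtain ⟨d, hd⟩ : ∃ d, ¬ (d ∈ p.1 ↔ d ∈ p.2) := by
        by_contra h2
        exact e (Set.ext fun d => by by_contra h3; exact h2 ⟨d, h3⟩)
      refine ⟨d, ?_, fun h => absurd h hd⟩
      by_cases h3 : d ∈ p.1
      · exact (hC.club ρ hρ hl _ hp.1).1 h3
      · have : d ∈ p.2 := by tauto
        exact (hC.club ρ hρ hl _ hp.2).1 this
  choose! d d1 d2 using h1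
  obtain ⟨η, hη, h2⟩ := bdd_fam (ρ := ρ) (s := C ρ ×ˢ C ρ) d (by
    rw [mk_setProd]
    refine lt_of_le_of_lt ?_ (lt_lift_cof_two hc)
    calc #(C ρ) * #(C ρ) ≤ aleph 1 * aleph 1 :=
          mul_le_mul' (hC.card ρ hρ hl) (hC.card ρ hρ hl)
      _ = aleph 1 := mul_eq_self (aleph0_le_aleph 1)) d1
  have h3 : ∀ θ < ρ, ∃ b < ρ, θ < b ∧ ∀ D ∈ C ρ, ∃ c ∈ D, θ < c ∧ c < b := by
    intro θ hθ
    have : ∀ D ∈ C ρ, ∃ c ∈ D, θ < c ∧ c < ρ := fun D hD =>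
      (hC.club ρ hρ hl D hD).exists_gt hl hθ
    choose! c c1 c2 c3 using this
    obtain ⟨b, hb, h4⟩ := bdd_fam c hcard c3
    obtain ⟨D0, hD0⟩ := hC.ne ρ hρ hl
    exact ⟨b, hb, (c2 D0 hD0).trans (h4 D0 hD0), fun D hD => ⟨c D, c1 D hD, c2 D hD, h4 D hD⟩⟩
  choose! g g1 g2 g3 using h3
  have hw : ∀ n, g^[n] η < ρ := by
    intro n
    induction n with
    | zero => exact hη
    | succ n ih => rw [Function.iterate_succ_apply']; exact g1 _ ih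
  obtain ⟨v, v1, v2⟩ := exists_sup_seq (fun n => g^[n] η) fun n => by
    simp only [Function.iterate_succ_apply']; exact g2 _ (hw n)
  obtain ⟨b, hb, h4⟩ := bdd_countable (aleph0_lt_cof_two hc) (countable_range fun n => g^[n] η)
    (by rintro _ ⟨n, rfl⟩; exact hw n)
  have hv : v ≤ b := by
    by_contra h5
    obtain ⟨n, hn⟩ := v2 b (not_le.1 h5)
    exact (h4 _ ⟨n, rfl⟩).not_gt hn
  refine ⟨v, hv.trans_lt hb, fun D hD => ⟨(v1 0).ne_bot, fun θ hθ => ?_⟩, fun D hD D' hD' e => ?_⟩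
  · obtain ⟨n, hn⟩ := v2 θ hθ
    obtain ⟨c, c1, c2, c3⟩ := g3 _ (hw n) D hD
    refine ⟨c, c1, hn.trans c2, c3.trans ?_⟩
    have := v1 (n + 1)
    simp only [Function.iterate_succ_apply'] at this
    exact this
  · have h5 : d (D, D') < v := (h2 (D, D') ⟨hD, hD'⟩).trans (v1 0)
    refine d2 (D, D') ⟨hD, hD'⟩ ⟨fun h => ?_, fun h => ?_⟩
    · have : d (D, D') ∈ D ∩ Iio v := ⟨h, h5⟩
      simp only at e
      rw [e] at this; exact this.1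
    · have : d (D, D') ∈ D' ∩ Iio v := ⟨h, h5⟩
      simp only at e
      rw [← e] at this; exact this.1

theorem exists_idx {k : Cardinal.{u}} (hk : k.IsRegular) (h2 : aleph 2 < k) (hC : Sq k.ord C) :
    ∃ ι b S, Idx k.ord C ι b S := by
  classical
  have hL := reg_ord hk ((aleph0_le_aleph 2).trans_lt h2)
  obtain ⟨v, hv, hS⟩ := (st_cof hk isRegular_aleph_two h2).fodor hL
    (R := fun v ρ => ρ < k.ord ∧ ρ.cof = aleph 2 ∧ v < ρ ∧ (∀ D ∈ C ρ, IsLim v D) ∧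
      InjOn (fun D => D ∩ Iio v) (C ρ))
    fun ρ hρ hc => by
      obtain ⟨v, h1, h3, h4⟩ := exists_sep hC hρ hc
      exact ⟨v, h1, hρ, hc, h1, h3, h4⟩
  have hvl : IsSuccLimit v := by
    obtain ⟨ρ, hρ, _, hc, _, h3, _⟩ := hS.exists
    obtain ⟨D, hD⟩ := hC.ne ρ hρ (lim_of_cof_two hc)
    exact (h3 D hD).isSuccLimit
  have hc : #(C v) ≤ #(Iio (Ordinal.omega.{u} 1)) := by
    rw [mk_Iio_ordinal, Ordinal.card_omega, lift_aleph]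
    simpa using hC.card v hv hvl
  obtain ⟨j⟩ := (Cardinal.le_def _ _).1 hc
  refine ⟨fun c => if h : c ∩ Iio v ∈ C v then (j ⟨_, h⟩).1 else 0, v, _, hv, hS, fun c => ?_,
    fun c a ha => ?_, fun ρ h => h.2.1, fun ρ h => h.2.2.1, fun ρ h D hD D' hD' e => ?_⟩
  · split_ifs with h
    · exact (j _).2
    · exact Ordinal.omega_pos 1
  · have : c ∩ Iio a ∩ Iio v = c ∩ Iio v := by
      rw [inter_assoc, Iio_inter_Iio, min_eq_right ha]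
    simp only [this]
  · have hl := lim_of_cof_two h.2.1
    have h3 := hC.coh ρ h.1 hl D hD v h.2.2.1 (h.2.2.2.1 D hD)
    have h4 := hC.coh ρ h.1 hl D' hD' v h.2.2.1 (h.2.2.2.1 D' hD')
    simp only [dif_pos h3, dif_pos h4] at e
    exact h.2.2.2.2 hD hD' (congrArg Subtype.val (j.injective (Subtype.ext e)))

theorem ultra_fin {X J : Type*} (U : Ultrafilter X) {s : Set J} (hs : s.Finite)
    {p : J → X → Prop} (h : ∀ᶠ x in U, ∃ j ∈ s, p j x) : ∃ j ∈ s, ∀ᶠ x in U, p j x := by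
  have : (⋃ j ∈ s, {x | p j x}) ∈ U := by
    refine Filter.mem_of_superset h fun x hx => ?_
    obtain ⟨j, hj, h1⟩ := hx
    exact mem_biUnion hj h1
  exact (Ultrafilter.finite_biUnion_mem_iff hs).1 this

variable {ι : Set Ordinal.{u} → Ordinal.{u}} {b : Ordinal.{u}} {S : Ordinal.{u} → Prop}

theorem no_finite_cover (hL : Reg L) (hC : Sq L C) (hI : Idx L C ι b S) {J : Set Ordinal.{u}}
    (hJ : J.Finite) {T : Set Ordinal.{u}} (hT : ∀ a ∈ T, a < L ∧ S a)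
    (hT2 : ∀ η < L, ∃ a ∈ T, η < a)
    (hcov : ∀ a ∈ T, ∀ ρ ∈ T, a < ρ → ∃ D ∈ C ρ, ι D ∈ J ∧ IsLim a D) : False := by
  have : Nonempty T := by
    obtain ⟨a, ha, _⟩ := hT2 0 hL.lim.pos
    exact ⟨⟨a, ha⟩⟩
  let U : Ultrafilter T := Ultrafilter.of Filter.atTop
  have hU : ∀ η < L, ∀ᶠ ρ : T in U, η < ρ.1 := by
    intro η hη
    obtain ⟨a, ha, h1⟩ := hT2 η hη
    exact (Ultrafilter.of_le _) ((Filter.eventually_ge_atTop (⟨a, ha⟩ : T)).mono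
      fun ρ h2 => h1.trans_le h2)
  have hlim : ∀ a : T, IsSuccLimit a.1 := fun a => lim_of_cof_two (hI.cof _ (hT _ a.2).2)
  have h1 : ∀ a : T, ∃ j ∈ J, ∀ᶠ ρ : T in U, a.1 < ρ.1 ∧ ∃ D ∈ C ρ, ι D = j ∧ IsLim a D := by
    intro a
    refine ultra_fin U hJ ((hU a (hT a a.2).1).mono fun ρ h2 => ?_)
    obtain ⟨D, hD, h3, h4⟩ := hcov a a.2 ρ ρ.2 h2
    exact ⟨ι D, h3, h2, D, hD, rfl, h4⟩
  obtain ⟨j, _, hj⟩ := ultra_fin U hJ (Filter.Eventually.of_forall h1)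
  let A : Set T := {a | ∀ᶠ ρ : T in U, a.1 < ρ.1 ∧ ∃ D ∈ C ρ, ι D = j ∧ IsLim a D}
  have hA : ∀ η < L, ∃ a ∈ A, η < a.1 := by
    intro η hη
    obtain ⟨a, h2, h3⟩ := (hj.and (hU η hη)).exists
    exact ⟨a, h2, h3⟩
  have hres : ∀ (a ρ : T) (D : Set Ordinal.{u}), a.1 < ρ.1 → D ∈ C ρ → ι D = j → IsLim a D →
      D ∩ Iio a ∈ C a ∧ ι (D ∩ Iio a) = j := fun a ρ D h2 hD h3 h4 =>
    ⟨hC.coh ρ (hT _ ρ.2).1 (hlim ρ) D hD a h2 h4,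
      (hI.inter D a (hI.gt _ (hT _ a.2).2).le).trans h3⟩
  have K1 : ∀ a ∈ A, ∃ D ∈ C a, ι D = j := by
    intro a ha
    obtain ⟨ρ, h2, D, hD, h3, h4⟩ := ha.exists
    exact ⟨_, (hres a ρ D h2 hD h3 h4).1, (hres a ρ D h2 hD h3 h4).2⟩
  have K2 : ∀ a ∈ A, ∀ a' ∈ A, ∀ D ∈ C a, ∀ D' ∈ C a', ι D = j → ι D' = j →
      ∀ c ∈ D', c < a.1 → c ∈ D := by
    intro a ha a' ha' D hD D' hD' e e' c hc hca
    obtain ⟨ρ, ⟨h2, E, hE, h3, h4⟩, h2', E', hE', h3', h4'⟩ := (ha.and ha').exists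
    have e1 : E = E' := hI.inj _ (hT _ ρ.2).2 hE hE' (h3.trans h3'.symm)
    subst e1
    have r1 := hres a ρ E h2 hE h3 h4
    have r2 := hres a' ρ E h2' hE h3 h4'
    have e2 : D = E ∩ Iio a := hI.inj _ (hT _ a.2).2 hD r1.1 (e.trans r1.2.symm)
    have e3 : D' = E ∩ Iio a' := hI.inj _ (hT _ a'.2).2 hD' r2.1 (e'.trans r2.2.symm)
    rw [e3] at hc
    rw [e2]
    exact ⟨hc.1, hca⟩
  let F : Set Ordinal.{u} := {c | ∃ a ∈ A, ∃ D ∈ C a, ι D = j ∧ c ∈ D}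
  have K3 : ∀ a ∈ A, ∀ D ∈ C a, ι D = j → ∀ c ∈ F, c < a.1 → c ∈ D := by
    rintro a ha D hD e c ⟨a', ha', D', hD', e', hc⟩ hca
    exact K2 a ha a' ha' D hD D' hD' e e' c hc hca
  have hclub : ∀ a : T, ∀ D ∈ C a, ClubIn a D := fun a D hD =>
    hC.club a (hT _ a.2).1 (hlim a) D hD
  refine hC.nothread ⟨F, ⟨?_, fun η hη => ?_, fun β hβ h2 => ?_⟩, fun α hα h2 => ?_⟩
  · rintro c ⟨a, _, D, hD, _, hc⟩
    exact lt_trans (mem_Iio.1 ((hclub a D hD).1 hc)) (hT _ a.2).1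
  · obtain ⟨a, ha, h2⟩ := hA η hη
    obtain ⟨D, hD, e⟩ := K1 a ha
    obtain ⟨c, hc, h3⟩ := (hclub a D hD).2.1 η h2
    exact ⟨c, ⟨a, ha, D, hD, e, hc⟩, h3⟩
  · obtain ⟨a, ha, h3⟩ := hA β hβ
    obtain ⟨D, hD, e⟩ := K1 a ha
    exact ⟨a, ha, D, hD, e, (hclub a D hD).2.2 β h3
      (h2.mono fun c hc h4 => K3 a ha D hD e c hc (h4.trans h3))⟩
  · obtain ⟨a, ha, h3⟩ := hA α hα
    obtain ⟨D, hD, e⟩ := K1 a ha
    have e2 : F ∩ Iio α = D ∩ Iio α := by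
      ext c
      exact ⟨fun hc => ⟨K3 a ha D hD e c hc.1 (lt_trans hc.2 h3), hc.2⟩,
        fun hc => ⟨⟨a, ha, D, hD, e, hc.1⟩, hc.2⟩⟩
    rw [e2]
    exact hC.coh a (hT _ a.2).1 (hlim a) D hD α h3
      (h2.mono fun c hc h4 => K3 a ha D hD e c hc (h4.trans h3))

theorem avoid (hL : Reg L) (hC : Sq L C) (hI : Idx L C ι b S) {J : Set Ordinal.{u}}
    (hJ : J.Finite) (f g : Ordinal.{u} → Ordinal.{u}) (hf : ∀ γ < L, γ < f γ)
    (hg : ∀ γ < L, g γ < L) :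
    Cl L fun ρ => S ρ → ∀ η < ρ, ∃ γ, η ≤ γ ∧ γ < ρ ∧ g γ < ρ ∧
      ∀ D ∈ C ρ, ι D ∈ J → ∀ c ∈ D, f γ ≤ c → g γ < c := by
  classical
  by_contra hc
  have h1 : St L fun ρ => ¬ (S ρ → ∀ η < ρ, ∃ γ, η ≤ γ ∧ γ < ρ ∧ g γ < ρ ∧
      ∀ D ∈ C ρ, ι D ∈ J → ∀ c ∈ D, f γ ≤ c → g γ < c) :=
    fun h => hc (h.mono fun _ _ h2 => not_not.1 h2)
  obtain ⟨η, hη, h2⟩ := (h1.and_cl (Cl.closed hg)).fodor hL
    (R := fun η ρ => S ρ ∧ η < ρ ∧ (∀ γ < ρ, g γ < ρ) ∧ ∀ γ, η ≤ γ → γ < ρ →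
      ∃ D ∈ C ρ, ι D ∈ J ∧ ∃ c ∈ D, f γ ≤ c ∧ c ≤ g γ)
    fun ρ _ h3 => by
      obtain ⟨h3, h4⟩ := h3
      rw [Classical.not_imp, not_forall] at h3
      obtain ⟨h5, η, h6⟩ := h3
      rw [Classical.not_imp] at h6
      refine ⟨η, h6.1, h5, h6.1, h4, fun γ g1 g2 => ?_⟩
      by_contra h7
      refine h6.2 ⟨γ, g1, g2, h4 γ g2, fun D hD h8 c hc h9 => ?_⟩
      by_contra h10
      exact h7 ⟨D, hD, h8, c, hc, h9, not_lt.1 h10⟩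
  refine no_finite_cover hL hC hI hJ (T := {ρ | ρ < L ∧ S ρ ∧ η < ρ ∧ (∀ γ < ρ, g γ < ρ) ∧
      ∀ γ, η ≤ γ → γ < ρ → ∃ D ∈ C ρ, ι D ∈ J ∧ ∃ c ∈ D, f γ ≤ c ∧ c ≤ g γ})
    (fun a ha => ⟨ha.1, ha.2.1⟩) (fun θ hθ => ?_) fun a ha ρ hρ haρ => ?_
  · obtain ⟨ρ, h3, h4, h5⟩ := h2.exists_gt hθ
    exact ⟨ρ, ⟨h3, h5⟩, h4⟩
  · by_contra h3
    have hal := lim_of_cof_two (hI.cof _ ha.2.1)
    have h4 : ∀ j ∈ J, ∃ θ < a, ∀ D ∈ C ρ, ι D = j → ∀ c ∈ D, θ < c → a ≤ c := by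
      intro j hj
      by_cases e : ∃ D ∈ C ρ, ι D = j
      · obtain ⟨D, hD, e⟩ := e
        obtain ⟨θ, t1, t2⟩ := not_isLim hal.ne_bot fun h => h3 ⟨D, hD, e ▸ hj, h⟩
        refine ⟨θ, t1, fun D' hD' e' => ?_⟩
        rw [hI.inj _ hρ.2.1 hD' hD (e'.trans e.symm)]
        exact t2
      · exact ⟨0, hal.pos, fun D hD e' => absurd ⟨D, hD, e'⟩ e⟩
    choose! θ t1 t2 using h4
    obtain ⟨B, hB, h5⟩ := bdd_countable (aleph0_lt_cof_two (hI.cof _ ha.2.1))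
      (hJ.image θ).countable (by rintro _ ⟨j, hj, rfl⟩; exact t1 j hj)
    have h6 : max B η < a := max_lt hB ha.2.2.1
    obtain ⟨D, hD, h7, c, hc, h8, h9⟩ := hρ.2.2.2.2 (max B η) (le_max_right _ _) (h6.trans haρ)
    have h10 : θ (ι D) < c :=
      ((h5 _ ⟨_, h7, rfl⟩).trans_le (le_max_left B η)).trans
        ((hf _ (h6.trans ha.1)).trans_le h8)
    exact (t2 _ h7 D hD rfl c hc h10).not_gt (h9.trans_lt (ha.2.2.2.1 _ h6))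

end Pool.Agent.P.MP_aee6d4_lc
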