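import Mathlib
import Pool.Agent.P.MP_aee6d4_lc.Game
import Pool.Agent.P.MP_aee6d4_lc.Index

/-!
The club filter on countable subsets, the bad set, and the proof that it does not reflect.
-/

namespace Pool.Agent.P.MP_aee6d4_lc

universe u

open Set Cardinal Order

/-- `P` holds for all subsets of `W` closed under some finitary function -/
def CF (W : Set Ordinal.{u}) (P : Set Ordinal.{u} → Prop) : Prop :=
  ∃ G : Set Ordinal.{u} → Set Ordinal.{u}, (∀ e : Set Ordinal.{u}, e.Finite → (G e).Countable) ∧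
    Closed G W ∧ ∀ y, y ⊆ W → Closed G y → P y

variable {W : Set Ordinal.{u}} {P Q : Set Ordinal.{u} → Prop}

theorem CF.mono (h : CF W P) (hPQ : ∀ y, y ⊆ W → P y → Q y) : CF W Q := by
  obtain ⟨G, h1, h2, h3⟩ := h
  exact ⟨G, h1, h2, fun y hy h4 => hPQ y hy (h3 y hy h4)⟩

theorem CF.and (h : CF W P) (h' : CF W Q) : CF W fun y => P y ∧ Q y := by
  obtain ⟨G, h1, h2, h3⟩ := h
  obtain ⟨G', h1', h2', h3'⟩ := h'
  exact ⟨fun e => G e ∪ G' e, fun e he => (h1 e he).union (h1' e he),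
    fun e he h4 => union_subset (h2 e he h4) (h2' e he h4), fun y hy h4 =>
      ⟨h3 y hy fun e he h5 => subset_union_left.trans (h4 e he h5),
        h3' y hy fun e he h5 => subset_union_right.trans (h4 e he h5)⟩⟩

theorem CF.sup {z : Set Ordinal.{u}} (hz : z.Countable) (h : z ⊆ W) : CF W fun y => z ⊆ y :=
  ⟨fun _ => z, fun _ _ => hz, fun _ _ _ => h, fun _ _ h1 => h1 ∅ finite_empty (empty_subset _)⟩

theorem CF.of_forall (h : ∀ y, y ⊆ W → P y) : CF W P :=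
  (CF.sup countable_empty (empty_subset W)).mono fun y hy _ => h y hy

theorem CF.diag {R : Ordinal.{u} → Set Ordinal.{u} → Prop} (h : ∀ a ∈ W, CF W (R a)) :
    CF W fun y => ∀ a ∈ y, R a y := by
  choose! G h1 h2 h3 using h
  refine ⟨fun e => ⋃ a ∈ e ∩ W, ⋃ e' ∈ {e' | e' ⊆ e}, G a e', fun e he => ?_, fun e he h4 => ?_,
    fun y hy h4 a ha => h3 a (hy ha) y hy fun e he h5 => ?_⟩
  · exact (he.countable.mono inter_subset_left).biUnion fun a ha =>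
      he.finite_subsets.countable.biUnion fun e' he' => h1 a ha.2 e' (he.subset he')
  · exact iUnion₂_subset fun a ha => iUnion₂_subset fun e' he' =>
      h2 a ha.2 e' (he.subset he') (subset_trans he' h4)
  · refine subset_trans ?_ (h4 (insert a e) (he.insert a) (insert_subset ha h5))
    intro v hv
    exact mem_iUnion₂.2 ⟨a, ⟨mem_insert _ _, hy ha⟩, mem_iUnion₂.2 ⟨e, subset_insert _ _, hv⟩⟩

theorem CF.restrict {W' : Set Ordinal.{u}} (hW : W' ⊆ W) (h : CF W' P) :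
    CF W fun y => P (y ∩ W') := by
  obtain ⟨G, h1, h2, h3⟩ := h
  refine ⟨fun e => G (e ∩ W'), fun e he => h1 _ (he.inter_of_left _),
    fun e he _ => (h2 _ (he.inter_of_left _) inter_subset_right).trans hW,
    fun y _ h4 => h3 _ inter_subset_right fun e he h5 => ?_⟩
  have h6 : e ⊆ W' := h5.trans inter_subset_right
  have h7 := h4 e he (h5.trans inter_subset_left)
  simp only [inter_eq_left.2 h6] at h7
  exact subset_inter h7 (h2 e he h6)

theorem CF.not_stat {S : Set (Set Ordinal.{u})} (h : CF W fun y => y.Countable → y ∉ S) :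
    ¬ StatCtbl W (S ∩ Ctbl W) := by
  obtain ⟨G, h1, h2, h3⟩ := h
  intro hS
  obtain ⟨y, y1, y2⟩ := hS.2 {y | y ∈ Ctbl W ∧ Closed G y} ⟨fun y hy => hy.1, fun x hx =>
    ⟨cl G x, ⟨⟨cl_min hx.1 h2, countable_cl h1 hx.2.1, hx.2.2.mono (subset_cl x)⟩, closed_cl x⟩,
      subset_cl x⟩, fun f hf h4 => ⟨⟨iUnion_subset fun n => (h4 n).1.1,
        countable_iUnion fun n => (h4 n).1.2.1, (h4 0).1.2.2.mono (subset_iUnion f 0)⟩,
        closed_iUnion hf fun n => (h4 n).2⟩⟩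
  exact h3 y y1.2.1 y2.2 y1.2.2.1 y1.1

theorem kueker {A : Set Ordinal.{u}} (hA : A.Infinite) {D : Set (Set Ordinal.{u})}
    (hD : ClubCtbl A D) : ∃ G : Set Ordinal.{u} → Set Ordinal.{u},
      (∀ e : Set Ordinal.{u}, e.Finite → (G e).Countable) ∧ Closed G A ∧
        ∀ x ∈ Ctbl A, Closed G x → x ∈ D := by
  obtain ⟨h1, h2, h3⟩ := hD
  choose! up u1 u2 using h2
  obtain ⟨x0, hx0⟩ : ∃ x0, x0 ∈ Ctbl A := by
    let f := hA.natEmbedding A
    refine ⟨range fun n => (f n).1, ?_, countable_range _, infinite_range_of_injective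
      (Subtype.val_injective.comp f.injective)⟩
    rintro _ ⟨n, rfl⟩; exact (f n).2
  let F : List Ordinal.{u} → Set Ordinal.{u} := fun l =>
    l.foldr (fun a B => up (insert a B)) (up x0)
  have hins : ∀ a ∈ A, ∀ B ∈ D, insert a B ∈ Ctbl A := fun a ha B hB =>
    ⟨insert_subset ha (h1 hB).1, (h1 hB).2.1.insert a, (h1 hB).2.2.mono (subset_insert _ _)⟩
  have hF : ∀ l : List Ordinal.{u}, (∀ a ∈ l, a ∈ A) → F l ∈ D := by
    intro l
    induction l with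
    | nil => intro _; exact u1 _ hx0
    | cons a l ih =>
      intro h
      exact u1 _ (hins a (h a (by simp)) _ (ih fun b hb => h b (by simp [hb])))
  refine ⟨fun e => ⋃ l ∈ {l : List Ordinal.{u} | ∀ a ∈ l, a ∈ e ∩ A}, F l, fun e he => ?_,
    fun e _ _ => iUnion₂_subset fun l hl => (h1 (hF l fun a ha => (hl a ha).2)).1,
    fun x hx hc => ?_⟩
  · refine Countable.biUnion ?_ fun l hl => (h1 (hF l fun a ha => (hl a ha).2)).2.1
    have : Countable ↥(e ∩ A) := (he.countable.mono inter_subset_left).to_subtype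
    refine (countable_range (List.map (Subtype.val : ↥(e ∩ A) → Ordinal.{u}))).mono fun l hl => ?_
    exact ⟨l.attachWith _ hl, by simp⟩
  · obtain ⟨s, hs⟩ := hx.2.1.exists_eq_range hx.2.2.nonempty
    have hsx : ∀ n, s n ∈ x := fun n => hs ▸ mem_range_self n
    let l : ℕ → List Ordinal.{u} := fun n => Nat.rec [] (fun n l => s n :: l) n
    have hl : ∀ n, ∀ a ∈ l n, a ∈ x := by
      intro n
      induction n with
      | zero => intro a ha; simp [l] at ha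
      | succ n ih =>
        intro a ha
        rcases List.mem_cons.1 ha with h | h
        · rw [h]; exact hsx n
        · exact ih a h
    have hlD : ∀ n, F (l n) ∈ D := fun n => hF _ fun a ha => hx.1 (hl n a ha)
    have hstep : ∀ n, insert (s n) (F (l n)) ⊆ F (l (n + 1)) := fun n =>
      u2 _ (hins _ (hx.1 (hsx n)) _ (hlD n))
    have e : x = ⋃ n, F (l n) := by
      apply Subset.antisymm
      · rw [hs]
        rintro _ ⟨n, rfl⟩
        exact mem_iUnion.2 ⟨n + 1, hstep n (mem_insert _ _)⟩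
      · refine iUnion_subset fun n => subset_trans ?_
          (hc {a | a ∈ l n} (List.finite_toSet _) (hl n))
        intro v hv
        exact mem_iUnion₂.2 ⟨l n, fun a ha => ⟨ha, hx.1 (hl n a ha)⟩, hv⟩
    rw [e]
    exact h3 _ (monotone_nat_of_le_succ fun n => (subset_insert _ _).trans (hstep n)) hlD

/-- `δ` is the strict supremum of `x` -/
def Ssup (δ : Ordinal.{u}) (x : Set Ordinal.{u}) : Prop :=
  (∀ a ∈ x, a < δ) ∧ ∀ η < δ, ∃ a ∈ x, η ≤ a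

theorem exists_ssup {x : Set Ordinal.{u}} {B : Ordinal.{u}} (h : ∀ a ∈ x, a < B) :
    ∃ δ ≤ B, Ssup δ x := by
  have hm := csInf_mem (s := {δ | ∀ a ∈ x, a < δ}) ⟨B, h⟩
  refine ⟨_, csInf_le' (s := {δ | ∀ a ∈ x, a < δ}) h, hm, fun η hη => ?_⟩
  by_contra h1
  refine (csInf_le' (s := {δ | ∀ a ∈ x, a < δ}) (a := η) fun a ha => ?_).not_gt hη
  by_contra h2
  exact h1 ⟨a, ha, not_lt.1 h2⟩

theorem Ssup.le {x : Set Ordinal.{u}} {δ B : Ordinal.{u}} (h : Ssup δ x) (hB : ∀ a ∈ x, a < B) :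
    δ ≤ B := by
  by_contra h1
  obtain ⟨a, ha, h2⟩ := h.2 B (not_le.1 h1)
  exact (hB a ha).not_ge h2

/-- the bad set, before closing upward -/
def Bad (C : Ordinal.{u} → Set (Set Ordinal.{u})) (ι : Set Ordinal.{u} → Ordinal.{u})
    (b : Ordinal.{u}) (h : Ordinal.{u} → Ordinal.{u}) (c : Ordinal.{u} → Ordinal.{u} → Ordinal.{u})
    (x : Set Ordinal.{u}) : Prop :=
  ∃ ζ δ, x ∩ Iio (Ordinal.omega 1) = Iio ζ ∧ Ssup δ x ∧ b ≤ δ ∧ ζ ≤ h δ ∧
    ∀ D ∈ C δ, ι D < ζ → ∃ ξ < δ, ∀ β ∈ D, ξ < β →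
      ∃ γ ∈ x, γ.cof = aleph 1 ∧ β ≤ γ ∧ ∃ θ < β, ∀ i < ζ, c γ i ≤ θ

variable {L : Ordinal.{u}} {C : Ordinal.{u} → Set (Set Ordinal.{u})}
  {ι : Set Ordinal.{u} → Ordinal.{u}} {b : Ordinal.{u}} {S : Ordinal.{u} → Prop}
  {h : Ordinal.{u} → Ordinal.{u}} {c : Ordinal.{u} → Ordinal.{u} → Ordinal.{u}}

theorem exists_common_limit {δ : Ordinal.{u}} {D : Set Ordinal.{u}} (hW : Ssup δ W)
    (hl : IsSuccLimit δ) (hD : ClubIn δ D)
    (hb : ∀ z : Set Ordinal.{u}, z.Countable → z ⊆ W → ∃ η < δ, ∀ a ∈ z, a < η)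
    {η : Ordinal.{u}} (hη : η ∈ W) :
    ∃ z : Set Ordinal.{u}, z.Countable ∧ z ⊆ W ∧ ∃ β ∈ D, η < β ∧ IsLim β z ∧ ∃ w ∈ z, β ≤ w := by
  have : ∀ w ∈ W, ∃ w' ∈ W, ∃ c ∈ D, w < c ∧ c ≤ w' := by
    intro w hw
    obtain ⟨c, c1, c2, c3⟩ := hD.exists_gt hl (hW.1 w hw)
    obtain ⟨w', h1, h2⟩ := hW.2 c c3
    exact ⟨w', h1, c, c1, c2, h2⟩
  choose! g g1 g2 using this
  have hw : ∀ n, g^[n] η ∈ W := by
    intro n
    induction n with
    | zero => exact hη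
    | succ n ih => rw [Function.iterate_succ_apply']; exact g1 _ ih
  obtain ⟨β, v1, v2⟩ := exists_sup_seq (fun n => g^[n] η) fun n => by
    simp only [Function.iterate_succ_apply']
    obtain ⟨c, _, c2, c3⟩ := g2 _ (hw n)
    exact c2.trans_le c3
  have hz : (range fun n => g^[n] η) ⊆ W := by rintro _ ⟨n, rfl⟩; exact hw n
  obtain ⟨B, hB, h1⟩ := hb _ (countable_range _) hz
  have hβ : β < δ := by
    refine lt_of_le_of_lt ?_ hB
    by_contra h2
    obtain ⟨n, hn⟩ := v2 B (not_le.1 h2)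
    exact (h1 _ ⟨n, rfl⟩).not_gt hn
  obtain ⟨w, w1, w2⟩ := hW.2 β hβ
  refine ⟨insert w (range fun n => g^[n] η), (countable_range _).insert w, insert_subset w1 hz,
    β, hD.2.2 β hβ ⟨(v1 0).ne_bot, fun θ hθ => ?_⟩, v1 0, ⟨(v1 0).ne_bot, fun θ hθ => ?_⟩,
    w, mem_insert _ _, w2⟩
  · obtain ⟨n, hn⟩ := v2 θ hθ
    obtain ⟨c, c1, c2, c3⟩ := g2 _ (hw n)
    refine ⟨c, c1, hn.trans c2, c3.trans_lt ?_⟩
    have := v1 (n + 1)
    simp only [Function.iterate_succ_apply'] at this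
    exact this
  · obtain ⟨n, hn⟩ := v2 θ hθ
    exact ⟨_, Or.inr ⟨n, rfl⟩, hn, v1 n⟩

theorem no_reflect (hC : Sq L C) (hI : Idx L C ι b S) (hh : ∀ δ, h δ < Ordinal.omega 1)
    (hc : ∀ γ : Ordinal.{u}, γ.cof = aleph 1 → ∀ w < γ, ∃ i < Ordinal.omega 1, w < c γ i)
    (δ' : Ordinal.{u}) : ∀ W : Set Ordinal.{u}, Ssup δ' W → δ' < L → Iio (Ordinal.omega 1) ⊆ W →
      CF W fun y => y.Countable → ¬ ∃ x, x ⊆ y ∧
        x ∩ Iio (Ordinal.omega 1) = y ∩ Iio (Ordinal.omega 1) ∧ Bad C ι b h c x := by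
  induction δ' using WellFoundedLT.induction with
  | ind δ' ih =>
  intro W hW hδ' hω
  have h1 : CF W fun y => ∀ η ∈ y, Ordinal.omega 1 ≤ η → (y ∩ (W ∩ Iio η)).Countable →
      ¬ ∃ x, x ⊆ y ∩ (W ∩ Iio η) ∧ x ∩ Iio (Ordinal.omega 1)
        = y ∩ (W ∩ Iio η) ∩ Iio (Ordinal.omega 1) ∧ Bad C ι b h c x := by
    refine CF.diag fun η hη => ?_
    by_cases h2 : Ordinal.omega 1 ≤ η
    · obtain ⟨δ, d1, d2⟩ := exists_ssup (x := W ∩ Iio η) (B := η) fun a ha => ha.2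
      have h3 := d1.trans_lt (hW.1 η hη)
      exact ((ih δ h3 _ d2 (h3.trans hδ')
        (subset_inter hω (Iio_subset_Iio h2))).restrict inter_subset_left).mono fun y _ h4 _ => h4
    · exact CF.of_forall fun y _ h3 => absurd h3 h2
  have h2 : CF W fun y => y.Countable → ∀ x, x ⊆ y →
      x ∩ Iio (Ordinal.omega 1) = y ∩ Iio (Ordinal.omega 1) → Bad C ι b h c x →
        ∀ δ, Ssup δ x → Ssup δ y := by
    refine h1.mono fun y hy h2 hyc x hxy e hx δ hδ => ⟨fun a ha => ?_, fun η hη => ?_⟩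
    · by_contra h3
      by_cases h4 : Ordinal.omega 1 ≤ a
      · refine h2 a ha h4 (hyc.mono inter_subset_left) ⟨x, fun v hv =>
          ⟨hxy hv, hy (hxy hv), (hδ.1 v hv).trans_le (not_lt.1 h3)⟩, ?_, hx⟩
        rw [e]
        ext v
        exact ⟨fun hv => ⟨⟨hv.1, hy hv.1, lt_of_lt_of_le hv.2 h4⟩, hv.2⟩, fun hv => ⟨hv.1.1, hv.2⟩⟩
      · have : a ∈ x ∩ Iio (Ordinal.omega 1) := e ▸ ⟨ha, not_le.1 h4⟩
        exact h3 (hδ.1 a this.1)
    · obtain ⟨a, ha, h3⟩ := hδ.2 η hη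
      exact ⟨a, hxy ha, h3⟩
  by_cases hA : ∃ z : Set Ordinal.{u}, z.Countable ∧ z ⊆ W ∧ ∀ η < δ', ∃ a ∈ z, η ≤ a
  · obtain ⟨z, z1, z2, z3⟩ := hA
    refine (h2.and (CF.sup (z1.insert (h δ')) (insert_subset (hω (hh δ')) z2))).mono ?_
    rintro y hy ⟨h3, h4⟩ hyc ⟨x, hxy, e, hx⟩
    have h5 := h3 hyc x hxy e hx
    obtain ⟨ζ, δ, e2, d1, _, d2, _⟩ := hx
    have h6 := h5 δ d1
    have h7 : δ = δ' := by
      refine le_antisymm (h6.le fun a ha => hW.1 a (hy ha)) ?_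
      by_contra h7
      obtain ⟨a, ha, h8⟩ := z3 δ (not_le.1 h7)
      exact (h6.1 a (h4 (mem_insert_of_mem _ ha))).not_ge h8
    have h8 : h δ' ∈ Iio ζ := by
      rw [← e2, e]; exact ⟨h4 (mem_insert _ _), hh δ'⟩
    rw [h7] at d2
    exact d2.not_gt h8
  · have hb : ∀ z : Set Ordinal.{u}, z.Countable → z ⊆ W → ∃ η < δ', ∀ a ∈ z, a < η := by
      intro z z1 z2
      by_contra h3
      refine hA ⟨z, z1, z2, fun η hη => ?_⟩
      by_contra h4
      refine h3 ⟨η, hη, fun a ha => ?_⟩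
      by_contra h5
      exact h4 ⟨a, ha, not_lt.1 h5⟩
    have hl : IsSuccLimit δ' := by
      refine IsLim.isSuccLimit (C := univ)
        ⟨(hW.1 0 (hω (Ordinal.omega_pos 1))).ne_bot, fun η hη => ?_⟩
      obtain ⟨a, ha, h3⟩ := hW.2 η hη
      obtain ⟨B, hB, h4⟩ := hb {a} (countable_singleton a) (singleton_subset_iff.2 ha)
      exact ⟨B, mem_univ _, h3.trans_lt (h4 a rfl), hB⟩
    obtain ⟨D, hD⟩ := hC.ne δ' hδ' hl
    have hDc := hC.club δ' hδ' hl D hD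
    have h3 : CF W fun y => ∀ η ∈ y, ∃ β ∈ D, η < β ∧ IsLim β y ∧ ∃ w ∈ y, β ≤ w := by
      refine CF.diag fun η hη => ?_
      obtain ⟨z, z1, z2, β, b1, b2, b3, w, w1, w2⟩ := exists_common_limit hW hl hDc hb hη
      exact (CF.sup z1 z2).mono fun y _ h4 =>
        ⟨β, b1, b2, b3.mono fun v hv _ => h4 hv, w, h4 w1, w2⟩
    have h4 : CF W fun y => ∀ γ ∈ y, ∀ w ∈ y, γ.cof = aleph 1 → w < γ →
        ∃ i ∈ y, i < Ordinal.omega 1 ∧ w < c γ i := by
      refine CF.diag fun γ _ => CF.diag fun w _ => ?_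
      by_cases h5 : γ.cof = aleph 1 ∧ w < γ
      · obtain ⟨i, i1, i2⟩ := hc γ h5.1 w h5.2
        exact (CF.sup (countable_singleton i) (singleton_subset_iff.2 (hω i1))).mono
          fun y _ h6 _ _ => ⟨i, h6 rfl, i1, i2⟩
      · exact CF.of_forall fun y _ h6 h7 => absurd ⟨h6, h7⟩ h5
    refine ((h2.and h3).and (h4.and (CF.sup (countable_singleton (ι D))
      (singleton_subset_iff.2 (hω (hI.lt_omega D)))))).mono ?_
    rintro y hy ⟨⟨k2, k3⟩, k4, k5⟩ hyc ⟨x, hxy, e, hx⟩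
    have h5 := k2 hyc x hxy e hx
    obtain ⟨ζ, δ, e2, d1, d0, _, d3⟩ := hx
    have h6 := h5 δ d1
    have hζ : ∀ i ∈ y, i < Ordinal.omega 1 → i < ζ := by
      intro i hi h7
      have : i ∈ Iio ζ := by rw [← e2, e]; exact ⟨hi, h7⟩
      exact this
    have hδ : δ < δ' := by
      obtain ⟨B, hB, h7⟩ := hb y hyc hy
      exact (h6.le h7).trans_lt hB
    have hlim : IsLim δ D := by
      refine ⟨(h6.1 _ (k5 rfl)).ne_bot, fun η hη => ?_⟩
      obtain ⟨a, ha, h7⟩ := h6.2 η hη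
      obtain ⟨β, b1, b2, _, w, w1, w2⟩ := k3 a ha
      exact ⟨β, b1, h7.trans_lt b2, w2.trans_lt (h6.1 w w1)⟩
    obtain ⟨ξ, x1, x2⟩ := d3 _ (hC.coh δ' hδ' hl D hD δ hδ hlim)
      (by rw [hI.inter D δ d0]; exact hζ _ (k5 rfl) (hI.lt_omega D))
    obtain ⟨a, ha, h7⟩ := h6.2 ξ x1
    obtain ⟨β, b1, b2, b3, w, w1, w2⟩ := k3 a ha
    obtain ⟨γ, g1, g2, g3, θ, t1, t2⟩ := x2 β ⟨b1, w2.trans_lt (h6.1 w w1)⟩ (h7.trans_lt b2)
    obtain ⟨v, v1, v2, v3⟩ := b3.2 θ t1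
    obtain ⟨i, i1, i2, i3⟩ := k4 γ (hxy g1) v v1 g2 (v3.trans_le g3)
    exact (i3.trans_le (t2 i (hζ i i1 i2))).not_gt v2

end Pool.Agent.P.MP_aee6d4_lc
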