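import Mathlib
import Pool.Agent.P.MP_aee6d4_lc.Reflect

/-!
The bad set is stationary; the main theorem.
-/

namespace Pool.Agent.P.MP_aee6d4_lc

universe u

open Set Cardinal Order

variable {C : Ordinal.{u} → Set (Set Ordinal.{u})}
  {ι : Set Ordinal.{u} → Ordinal.{u}} {b : Ordinal.{u}} {S : Ordinal.{u} → Prop}
  {h : Ordinal.{u} → Ordinal.{u}} {c : Ordinal.{u} → Ordinal.{u} → Ordinal.{u}}

theorem exists_play {M : Type*} (I : ℕ → List M → Prop) (R : ℕ → M → Prop) (h0 : I 0 [])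
    (hs : ∀ n p, I n p → ∃ m, I (n + 1) (p ++ [m]) ∧ R n m) :
    ∃ s : ℕ → M, ∀ n, I n ((List.range n).map s) ∧ R n (s n) := by
  choose nx h1 h2 using hs
  let P : ∀ n, {p // I n p} := fun n =>
    Nat.rec ⟨[], h0⟩ (fun n p => ⟨p.1 ++ [nx n p.1 p.2], h1 n p.1 p.2⟩) n
  have hP : ∀ n, (List.range n).map (fun n => nx n (P n).1 (P n).2) = (P n).1 := by
    intro n
    induction n with
    | zero => rfl
    | succ n ih => rw [List.range_succ, List.map_append, ih]; rfl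
  exact ⟨fun n => nx n (P n).1 (P n).2, fun n => ⟨by rw [hP]; exact (P n).2, h2 _ _ _⟩⟩

theorem bad_stat {k : Cardinal.{u}} (hk : k.IsRegular) (h2 : aleph 2 < k) (hC : Sq k.ord C)
    (hI : Idx k.ord C ι b S)
    (hh : ∀ ζ < Ordinal.omega 1, St k.ord fun δ => δ.cof = ℵ₀ ∧ ζ ≤ h δ)
    (hc : ∀ γ : Ordinal.{u}, γ.cof = aleph 1 → ∀ i < Ordinal.omega 1, c γ i < γ)
    {D0 : Set (Set Ordinal.{u})} (hD0 : ClubCtbl (Iio k.ord) D0) :
    ∃ x ∈ D0, Bad C ι b h c x := by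
  classical
  have h1 : aleph 1 < k := aleph_one_lt_two.trans h2
  have hL := reg_ord hk (aleph0_lt_aleph_one.trans h1)
  have hω : Ordinal.omega 1 < k.ord := by rw [← ord_aleph]; exact ord_strictMono h1
  have hinf : (Iio k.ord).Infinite :=
    infinite_of_injective_forall_mem (f := fun n : ℕ => (n : Ordinal.{u})) Nat.cast_injective
      fun n => (Ordinal.natCast_lt_omega0 n).trans hL.omega_lt
  obtain ⟨G0, g1, g2, g3⟩ := kueker hinf hD0
  let G : Set Ordinal.{u} → Set Ordinal.{u} := fun e =>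
    G0 e ∪ image2 c (e ∩ {γ | γ.cof = aleph 1}) (e ∩ Iio (Ordinal.omega 1))
  have hG : ∀ e : Set Ordinal.{u}, e.Finite → (G e).Countable := fun e he =>
    (g1 e he).union ((he.inter_of_left _).image2 c (he.inter_of_left _)).countable
  have hGL : Closed G (Iio k.ord) := fun e he h3 => union_subset (g2 e he h3) (by
    rintro _ ⟨γ, hγ, i, hi, rfl⟩
    exact lt_trans (hc γ hγ.2 i hi.2) (h3 hγ.1))
  obtain ⟨ζ, hζ, hwin⟩ := exists_win hk h1 hG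
  have : ∀ p γ, ∃ m : Ordinal.{u} × Ordinal.{u}, Win G k.ord ζ p → γ < k.ord →
      γ < m.1 ∧ m.1 ≤ m.2 ∧ m.2 < k.ord ∧ Win G k.ord ζ (p ++ [m]) := by
    intro p γ
    by_cases h3 : Win G k.ord ζ p ∧ γ < k.ord
    · obtain ⟨m, hm⟩ := h3.1.step h3.2
      exact ⟨m, fun _ _ => hm⟩
    · exact ⟨(0, 0), fun a b => absurd ⟨a, b⟩ h3⟩
  choose mv hmv using this
  obtain ⟨en, hen⟩ := ((countable_Iio hζ).insert 0).exists_eq_range (insert_nonempty _ _)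
  let Av : List (Ordinal.{u} × Ordinal.{u}) → ℕ → Ordinal.{u} → Prop := fun p n ρ =>
    S ρ → ∀ η < ρ, ∃ γ, η ≤ γ ∧ γ < ρ ∧ (mv p γ).2 < ρ ∧
      ∀ D ∈ C ρ, ι D ∈ en '' Iic n → ∀ v ∈ D, (mv p γ).1 ≤ v → (mv p γ).2 < v
  have hcl := (((diag_ord hL).prod (diag_ord hL)).list hL)
    (fun p ρ => Win G k.ord ζ p → ∀ n, Av p n ρ) fun p => by
      by_cases h3 : Win G k.ord ζ p
      · exact (Cl.forall_nat hL fun n => avoid hL hC hI ((finite_Iic n).image en)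
          (fun γ => (mv p γ).1) (fun γ => (mv p γ).2) (fun γ hγ => (hmv p γ h3 hγ).1)
          (fun γ hγ => (hmv p γ h3 hγ).2.2.1)).mono fun _ _ h4 _ => h4
      · exact Cl.of_forall fun _ _ h4 => absurd h4 h3
  let T : Set Ordinal.{u} := {ρ | S ρ ∧ ∀ p : List (Ordinal.{u} × Ordinal.{u}),
    (∀ m ∈ p, m.1 < ρ ∧ m.2 < ρ) → Win G k.ord ζ p → ∀ n, Av p n ρ}
  have hT : ∀ η < k.ord, ∃ a ∈ T, η < a ∧ a < k.ord := by
    intro η hη
    obtain ⟨ρ, r1, r2, r3⟩ := (hI.st.and_cl hcl).exists_gt hη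
    exact ⟨ρ, r3, r2, r1⟩
  obtain ⟨δ, hδ, ⟨d1, d2⟩, ⟨d3, d4⟩, d5, d6⟩ := ((hh ζ hζ).and_cl (((Cl.lim hT).and
    (cl_closed_Iio hL hG hGL)).and ((Cl.gt hI.lt).and (Cl.gt hω)))).exists
  have hδl := d3.isSuccLimit
  obtain ⟨e, e1, e2⟩ := exists_cofinal_nat d1
  choose! r r1 r2 r3 using d3.2
  let ρ : ℕ → Ordinal.{u} := fun n => Nat.rec (r 0) (fun n a => r (max a (e n))) n
  have hρ : ∀ n, ρ n < δ ∧ ρ n ∈ T := by
    intro n
    induction n with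
    | zero => exact ⟨r3 0 hδl.pos, r1 0 hδl.pos⟩
    | succ n ih => exact ⟨r3 _ (max_lt ih.1 (e1 n)), r1 _ (max_lt ih.1 (e1 n))⟩
  have hρ2 : ∀ n, max (ρ n) (e n) < ρ (n + 1) := fun n => r2 _ (max_lt (hρ n).1 (e1 n))
  have hρ3 : ∀ n, ρ n < ρ (n + 1) := fun n => (le_max_left _ _).trans_lt (hρ2 n)
  obtain ⟨s, hs⟩ := exists_play
    (fun n p => Win G k.ord ζ p ∧ ∀ m ∈ p, m.1 < ρ n ∧ m.2 < ρ n)
    (fun n m => ρ n < m.1 ∧ m.2 < ρ (n + 1) ∧
      ∀ D ∈ C δ, ι D ∈ en '' Iic n → ∀ v ∈ D, m.1 ≤ v → m.2 < v)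
    ⟨hwin, by simp⟩ fun n p hp => by
      obtain ⟨t1, t2, t3⟩ := hρ (n + 1)
      have hcof := hI.cof _ t2
      have hl := lim_of_cof_two hcof
      have : ∀ D ∈ C δ, ∃ θ < ρ (n + 1), ¬ IsLim (ρ (n + 1)) D →
          ∀ v ∈ D, θ < v → ρ (n + 1) ≤ v := by
        intro D _
        by_cases h3 : IsLim (ρ (n + 1)) D
        · exact ⟨0, hl.pos, fun h4 => absurd h3 h4⟩
        · obtain ⟨θ, a1, a2⟩ := not_isLim hl.ne_bot h3
          exact ⟨θ, a1, fun _ => a2⟩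
      choose! θ a1 a2 using this
      obtain ⟨B, hB, a3⟩ := bdd_fam θ ((hC.card δ hδ hδl).trans_lt (lt_lift_cof_two hcof)) a1
      have hp2 : ∀ m ∈ p, m.1 < ρ (n + 1) ∧ m.2 < ρ (n + 1) := fun m hm =>
        ⟨(hp.2 m hm).1.trans (hρ3 n), (hp.2 m hm).2.trans (hρ3 n)⟩
      obtain ⟨γ, c1, c2, c3, c4⟩ := t3 p hp2 hp.1 n t2 (max B (ρ n)) (max_lt hB (hρ3 n))
      obtain ⟨m1, m2, _, m4⟩ := hmv p γ hp.1 (c2.trans (t1.trans hδ))
      refine ⟨mv p γ, ⟨m4, fun m hm => ?_⟩, ((le_max_right _ _).trans c1).trans_lt m1, c3,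
        fun D hD h3 v hv h4 => ?_⟩
      · rcases List.mem_append.1 hm with h3 | h3
        · exact hp2 m h3
        · rw [List.mem_singleton.1 h3]; exact ⟨m2.trans_lt c3, c3⟩
      · by_cases h5 : v < ρ (n + 1)
        · by_cases h6 : IsLim (ρ (n + 1)) D
          · exact c4 _ (hC.coh δ hδ hδl D hD _ t1 h6)
              (by rw [hI.inter D _ (hI.gt _ t2).le]; exact h3) v ⟨hv, h5⟩ h4
          · exact absurd (a2 D hD h6 v hv (((a3 D hD).trans_le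
              ((le_max_left _ _).trans c1)).trans (m1.trans_le h4))) (not_le.2 h5)
        · exact c3.trans_le (not_lt.1 h5)
  have hgood : GoodPlay G k.ord ζ s := good_of_win hL.lim.pos fun n => (hs n).1.1
  have hs1 : ∀ n, (s n).1 < δ := fun n =>
    ((hgood.1 n).2.1.trans_lt (hs n).2.2.1).trans (hρ (n + 1)).1
  have hsm : StrictMono fun n => (s n).1 := strictMono_nat_of_lt_succ fun n =>
    ((hgood.1 n).2.1.trans_lt (hs n).2.2.1).trans (hs (n + 1)).2.1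
  have hcofs : ∀ η < δ, ∃ n, η < (s n).1 := by
    intro η hη
    obtain ⟨n, hn⟩ := e2 η hη
    exact ⟨n + 1, hn.trans (((le_max_right _ _).trans_lt (hρ2 n)).trans (hs (n + 1)).2.1)⟩
  have hxs : ∀ n, (s n).1 ∈ outcome G ζ s := fun n => subset_cl _ (Or.inr ⟨n, rfl⟩)
  have hxz : Iio ζ ⊆ outcome G ζ s := subset_union_left.trans (subset_cl _)
  have hxδ : outcome G ζ s ⊆ Iio δ :=
    cl_min (union_subset (Iio_subset_Iio (hζ.trans d6).le)
      (by rintro _ ⟨n, rfl⟩; exact hs1 n)) d4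
  have hxc : Closed G (outcome G ζ s) := closed_cl _
  refine ⟨outcome G ζ s, g3 _ ⟨hxδ.trans (Iio_subset_Iio hδ.le),
    countable_cl hG ((countable_Iio hζ).union (countable_range _)),
    infinite_of_injective_forall_mem hsm.injective hxs⟩
    fun e he h3 => subset_union_left.trans (hxc e he h3), ζ, δ, ?_, ⟨hxδ, fun η hη => ?_⟩,
    d5.le, d2, fun D hD h3 => ?_⟩
  · exact Subset.antisymm (fun a ha => hgood.2.1 a ha.1 ha.2)
      fun a ha => ⟨hxz ha, lt_trans (mem_Iio.1 ha) hζ⟩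
  · obtain ⟨n, hn⟩ := hcofs η hη
    exact ⟨_, hxs n, hn.le⟩
  · obtain ⟨j, hj⟩ : ι D ∈ range en := hen ▸ mem_insert_of_mem _ h3
    refine ⟨(s j).2, (hs j).2.2.1.trans (hρ (j + 1)).1, fun β hβ h4 => ?_⟩
    have hex := hcofs β ((hC.club δ hδ hδl D hD).1 hβ)
    have h5 := Nat.find_spec hex
    have h6 : j < Nat.find hex := by
      by_contra h6
      exact (h5.trans_le ((hsm.monotone (not_lt.1 h6)).trans (hgood.1 j).2.1)).not_gt h4
    obtain ⟨n, hn⟩ : ∃ n, Nat.find hex = n + 1 := ⟨Nat.find hex - 1, by omega⟩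
    have h7 : (s n).1 ≤ β := not_lt.1 (Nat.find_min hex (by omega))
    rw [hn] at h5
    refine ⟨_, hxs (n + 1), (hgood.1 _).1, h5.le, (s n).2,
      (hs n).2.2.2 D hD ⟨j, show j ≤ n by omega, hj⟩ β hβ h7, fun i hi => ?_⟩
    refine (hgood.2.2 n _ ?_ (hc _ (hgood.1 _).1 i (hi.trans hζ))).le
    refine hxc {(s (n + 1)).1, i} (toFinite _)
      (insert_subset (hxs _) (singleton_subset_iff.2 (hxz hi))) (Or.inr ?_)
    exact ⟨_, ⟨mem_insert _ _, (hgood.1 _).1⟩, i, ⟨mem_insert_of_mem _ rfl, hi.trans hζ⟩, rfl⟩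

theorem not_square_of_ssr {k : Cardinal.{u}} (hk : k.IsRegular) (h2 : aleph 2 < k)
    (hS : SSRAt k) : ¬ Square k := by
  intro hq
  have h1 : aleph 1 < k := aleph_one_lt_two.trans h2
  obtain ⟨C, hC⟩ := sq_of_square hk.aleph0_le hq
  obtain ⟨ι, b, S, hI⟩ := exists_idx hk h2 hC
  obtain ⟨h, hh1, hh2⟩ := exists_split hk h1
  have : ∀ γ : Ordinal.{u}, γ.cof = aleph 1 → ∃ f : Ordinal.{u} → Ordinal.{u},
      (∀ i < Ordinal.omega 1, f i < γ) ∧ ∀ w < γ, ∃ i < Ordinal.omega 1, w < f i := by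
    intro γ hγ
    have := exists_cofinal (γ := γ) (by
      rw [← Ordinal.one_lt_cof_iff, hγ]; exact one_lt_aleph0.trans aleph0_lt_aleph_one)
    rwa [hγ, ord_aleph] at this
  choose! c hc1 hc2 using this
  obtain ⟨W, w1, w2, w3, w4⟩ := hS {y | y ∈ Ctbl (Iio k.ord) ∧ ∃ x, x ⊆ y ∧
      x ∩ Iio (Ordinal.omega 1) = y ∩ Iio (Ordinal.omega 1) ∧ Bad C ι b h c x}
    ⟨fun y hy => hy.1, fun D hD => by
      obtain ⟨x, x1, x2⟩ := bad_stat hk h2 hC hI hh2 hc1 hD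
      exact ⟨x, ⟨hD.1 x1, x, subset_rfl, rfl, x2⟩, x1⟩⟩
    (by
      rintro y ⟨_, x, x1, x2, x3⟩ z hz h3 h4
      exact ⟨hz, x, x1.trans h3, x2.trans h4, x3⟩)
  obtain ⟨B, hB, h3⟩ := bdd_set (ρ := k.ord) (A := W) (by
    rw [w2, hk.cof_ord]
    have := lift_lt.{u, u + 1}.2 h1
    rw [lift_aleph] at this
    simpa using this) w1
  obtain ⟨δ, d1, d2⟩ := exists_ssup h3
  exact CF.not_stat ((no_reflect hC hI hh1 hc2 δ W d2 (d1.trans_lt hB) w3).mono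
    fun y _ h4 h5 h6 => h4 h5 h6.2) w4

end Pool.Agent.P.MP_aee6d4_lc
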